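import Mathlib

open MeasureTheory

namespace Q287.MK

/-- The modified Bessel function of the first kind on `(0,∞)`,
`I_μ(x) = Σ_k (x/2)^(2k+μ) / (k! Γ(k+μ+1))`. -/
noncomputable def besselI (μ x : ℝ) : ℝ :=
  ∑' k : ℕ, (x / 2) ^ (2 * (k : ℝ) + μ) / ((k.factorial : ℝ) * Real.Gamma (k + μ + 1))

/-- the unnormalised density `x^(ν-1) e^(-bx) I_μ(ax)` -/
noncomputable def phi (μ ν a b x : ℝ) : ℝ := x ^ (ν - 1) * Real.exp (-(b * x)) * besselI μ (a * x)

/-- the probability law on `(0,∞)` with density proportional to `x^(ν-1) e^(-bx) I_μ(ax)` -/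
noncomputable def law (μ ν a b : ℝ) : Measure ℝ :=
  volume.withDensity (fun x => ENNReal.ofReal
    (if 0 < x then phi μ ν a b x / ∫ y in Set.Ioi 0, phi μ ν a b y else 0))

/-- convolution powers of a measure -/
noncomputable def convPow (Q : Measure ℝ) : ℕ → Measure ℝ
  | 0 => Measure.dirac 0
  | (n + 1) => (convPow Q n) ∗ Q

/-- infinite divisibility: `P` is a probability measure and for every `n ≥ 1` it is the `n`-fold
convolution power of a probability measure -/
def IsInfDiv (P : Measure ℝ) : Prop :=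
  IsProbabilityMeasure P ∧ ∀ n : ℕ, 1 ≤ n → ∃ Q : Measure ℝ, IsProbabilityMeasure Q ∧ convPow Q n = P

end Q287.MK
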