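import Mathlib

open Finset

namespace Q287.MK

/-- moments of a tridiagonal system -/
noncomputable def mom (A B : ℕ → ℝ) : ℕ → ℕ → ℝ
  | 0, j => if j = 0 then 1 else 0
  | (n + 1), 0 => B 0 * mom A B n 1
  | (n + 1), (j + 1) => A (j + 1) * mom A B n j + B (j + 1) * mom A B n (j + 2)

lemma mom_zero (A B : ℕ → ℝ) (j : ℕ) : mom A B 0 j = if j = 0 then 1 else 0 := by
  rw [mom]

lemma mom_succ_zero (A B : ℕ → ℝ) (n : ℕ) : mom A B (n + 1) 0 = B 0 * mom A B n 1 := by
  rw [mom]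

lemma mom_succ_succ (A B : ℕ → ℝ) (n j : ℕ) :
    mom A B (n + 1) (j + 1) = A (j + 1) * mom A B n j + B (j + 1) * mom A B n (j + 2) := by
  rw [mom]

lemma mom_gt (A B : ℕ → ℝ) : ∀ n j : ℕ, n < j → mom A B n j = 0 := by
  intro n
  induction n with
  | zero => intro j hj; rw [mom_zero, if_neg (by omega)]
  | succ n ih =>
    intro j hj
    obtain ⟨j, rfl⟩ : ∃ j', j = j' + 1 := ⟨j - 1, by omega⟩
    rw [mom_succ_succ, ih j (by omega), ih (j + 2) (by omega)]
    ring

lemma mom_odd (A B : ℕ → ℝ) : ∀ n j : ℕ, (n + j) % 2 = 1 → mom A B n j = 0 := by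
  intro n
  induction n with
  | zero => intro j hj; rw [mom_zero, if_neg (by omega)]
  | succ n ih =>
    intro j hj
    rcases j with _ | j
    · rw [mom_succ_zero, ih 1 (by omega)]; ring
    · rw [mom_succ_succ, ih j (by omega), ih (j + 2) (by omega)]; ring

lemma mom_nonneg (A B : ℕ → ℝ) (hA : ∀ j, 0 ≤ A (j + 1)) (hB : ∀ j, 0 ≤ B j) :
    ∀ n j : ℕ, 0 ≤ mom A B n j := by
  intro n
  induction n with
  | zero => intro j; rw [mom_zero]; split_ifs <;> norm_num
  | succ n ih =>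
    intro j
    rcases j with _ | j
    · rw [mom_succ_zero]; exact mul_nonneg (hB 0) (ih 1)
    · rw [mom_succ_succ]
      exact add_nonneg (mul_nonneg (hA j) (ih j)) (mul_nonneg (hB _) (ih _))

lemma mom_bound (A B : ℕ → ℝ) (C : ℝ) (hA : ∀ j, |A (j + 1)| ≤ C) (hB : ∀ j, |B j| ≤ C) :
    ∀ n j : ℕ, |mom A B n j| ≤ (2 * C) ^ n := by
  have hC : 0 ≤ C := (abs_nonneg _).trans (hB 0)
  intro n
  induction n with
  | zero => intro j; rw [mom_zero]; split_ifs <;> norm_num
  | succ n ih =>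
    intro j
    have h0 : 0 ≤ (2 * C) ^ n := by positivity
    rcases j with _ | j
    · rw [mom_succ_zero, abs_mul, pow_succ]
      calc |B 0| * |mom A B n 1| ≤ C * (2 * C) ^ n :=
            mul_le_mul (hB 0) (ih 1) (abs_nonneg _) hC
        _ ≤ (2 * C) ^ n * (2 * C) := by nlinarith
    · rw [mom_succ_succ]
      calc |A (j + 1) * mom A B n j + B (j + 1) * mom A B n (j + 2)|
          ≤ |A (j + 1)| * |mom A B n j| + |B (j + 1)| * |mom A B n (j + 2)| := by
            rw [← abs_mul, ← abs_mul]; exact abs_add_le _ _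
        _ ≤ C * (2 * C) ^ n + C * (2 * C) ^ n :=
            add_le_add (mul_le_mul (hA j) (ih _) (abs_nonneg _) hC)
              (mul_le_mul (hB _) (ih _) (abs_nonneg _) hC)
        _ = (2 * C) ^ (n + 1) := by ring

/-- array supported on the parity class of `j`, starting at `j` -/
noncomputable def par (G : ℕ → ℝ) (j n : ℕ) : ℝ := if j ≤ n ∧ (n - j) % 2 = 0 then G ((n - j) / 2) else 0

lemma par_even (G : ℕ → ℝ) (j i : ℕ) : par G j (j + 2 * i) = G i := by
  unfold par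
  rw [if_pos ⟨by omega, by omega⟩]
  congr 1; omega

lemma par_odd (G : ℕ → ℝ) (j i : ℕ) : par G j (j + 2 * i + 1) = 0 := by
  unfold par
  rw [if_neg]
  omega

lemma par_lt (G : ℕ → ℝ) (j n : ℕ) (h : n < j) : par G j n = 0 := by
  unfold par
  rw [if_neg]
  omega

lemma par_rec (G : ℕ → ℕ → ℝ) (A B : ℕ → ℝ) (j : ℕ) (h0 : G (j + 1) 0 = A (j + 1) * G j 0)
    (h1 : ∀ i, G (j + 1) (i + 1) = A (j + 1) * G j (i + 1) + B (j + 1) * G (j + 2) i) (n : ℕ) :
    par (G (j + 1)) (j + 1) (n + 1) = A (j + 1) * par (G j) j n + B (j + 1) * par (G (j + 2)) (j + 2) n := by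
  rcases lt_or_ge n j with h | h
  · rw [par_lt _ _ _ (by omega), par_lt _ _ _ h, par_lt _ _ _ (by omega)]; ring
  · rcases Nat.even_or_odd' (n - j) with ⟨i, hi | hi⟩
    · obtain rfl : n = j + 2 * i := by omega
      rw [show j + 2 * i + 1 = (j + 1) + 2 * i by ring, par_even, par_even]
      rcases i with _ | i
      · rw [h0, par_lt _ _ _ (by omega)]; ring
      · rw [show j + 2 * (i + 1) = (j + 2) + 2 * i by ring, par_even, h1]
    · obtain rfl : n = j + 2 * i + 1 := by omega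
      rw [show j + 2 * i + 1 + 1 = (j + 1) + 2 * i + 1 by ring, par_odd, par_odd]
      rcases i with _ | i
      · rw [par_lt _ _ _ (by omega)]; ring
      · rw [show j + 2 * (i + 1) + 1 = (j + 2) + 2 * i + 1 by ring, par_odd]; ring

lemma par_rec0 (G : ℕ → ℕ → ℝ) (L : ℕ → ℝ) (b c : ℝ)
    (h1 : ∀ i, G 0 (i + 1) = c * L (i + 1) + b * G 1 i) (n : ℕ) :
    par (G 0) 0 (n + 1) = c * par L 0 (n + 1) + b * par (G 1) 1 n := by
  rcases Nat.even_or_odd' n with ⟨i, hi | hi⟩
  · subst hi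
    rw [show 2 * i + 1 = 0 + 2 * i + 1 by ring, par_odd, par_odd]
    rcases i with _ | i
    · rw [par_lt _ _ _ (by omega)]; ring
    · rw [show 2 * (i + 1) = 1 + 2 * i + 1 by ring, par_odd]; ring
  · subst hi
    rw [show 2 * i + 1 + 1 = 0 + 2 * (i + 1) by ring, par_even, par_even,
      show 2 * i + 1 = 1 + 2 * i by ring, par_even, h1]

theorem chain (G : ℕ → ℕ → ℝ) (L : ℕ → ℝ) (A B : ℕ → ℝ) (c : ℝ) (h00 : G 0 0 = c * L 0)
    (h01 : ∀ i, G 0 (i + 1) = c * L (i + 1) + B 0 * G 1 i)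
    (h10 : ∀ j, G (j + 1) 0 = A (j + 1) * G j 0)
    (h11 : ∀ j i, G (j + 1) (i + 1) = A (j + 1) * G j (i + 1) + B (j + 1) * G (j + 2) i) :
    ∀ n j, par (G j) j n = c * ∑ p ∈ antidiagonal n, mom A B p.1 j * par L 0 p.2 := by
  intro n
  induction n with
  | zero =>
    intro j
    rw [Finset.Nat.antidiagonal_zero, sum_singleton, mom_zero]
    rcases j with _ | j
    · have h1 : par (G 0) 0 0 = G 0 0 := par_even (G 0) 0 0
      have h2 : par L 0 0 = L 0 := par_even L 0 0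
      rw [h1, h2, h00]; simp
    · rw [par_lt _ _ _ (by omega), if_neg (by omega)]; ring
  | succ n ih =>
    intro j
    rw [Finset.Nat.sum_antidiagonal_succ]
    simp only
    rcases j with _ | j
    · rw [par_rec0 G L (B 0) c h01, mom_zero, if_pos rfl, ih 1]
      simp only [mom_succ_zero]
      rw [mul_add, mul_sum, mul_sum, mul_sum]
      congr 1
      · ring
      · apply sum_congr rfl; intro p _; ring
    · rw [par_rec G A B j (h10 j) (h11 j), mom_zero, if_neg (by omega), ih j, ih (j + 2)]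
      simp only [mom_succ_succ]
      rw [zero_mul, zero_add, mul_sum, mul_sum, mul_sum, mul_sum, mul_sum, ← sum_add_distrib]
      apply sum_congr rfl; intro p _; ring

/-- rising factorial -/
noncomputable def P (x : ℝ) (n : ℕ) : ℝ := ∏ i ∈ range n, (x + i)

lemma P_zero (x : ℝ) : P x 0 = 1 := by simp [P]

lemma P_succ (x : ℝ) (n : ℕ) : P x (n + 1) = P x n * (x + n) := by
  unfold P; rw [prod_range_succ]

lemma P_succ' (x : ℝ) (n : ℕ) : P x (n + 1) = x * P (x + 1) n := by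
  unfold P
  rw [prod_range_succ']
  rw [mul_comm]
  congr 1
  · simp
  · apply prod_congr rfl; intro i _; push_cast; ring

lemma P_pos {x : ℝ} (hx : 0 < x) (n : ℕ) : 0 < P x n := by
  unfold P; apply prod_pos; intro i _; positivity

/-- coefficients of `F` -/
noncomputable def Fc (κ μ : ℝ) (i : ℕ) : ℝ := P κ (2 * i) / (4 ^ i * i.factorial * P (μ + 1) i)

/-- the Y chain -/
noncomputable def GY (κ μ : ℝ) (j i : ℕ) : ℝ :=
  P κ (j + 2 * i + 1) / (2 ^ (j + 2 * i) * i.factorial * P (μ + 1) (i + j))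

noncomputable def AY (κ μ : ℝ) (j : ℕ) : ℝ := (κ + j) / (2 * (μ + j))
noncomputable def BY (δ μ : ℝ) (j : ℕ) : ℝ := if j = 0 then 1 else (j - 1 - δ) / (2 * (μ + j))

section
variable {κ μ δ : ℝ} (hμ : -1 < μ)
include hμ

lemma mu_ne (j : ℕ) : (μ + (j + 1 : ℕ) : ℝ) ≠ 0 := by
  have : (0 : ℝ) ≤ j := Nat.cast_nonneg j
  push_cast
  have : 0 < μ + (j + 1) := by linarith
  exact this.ne'

lemma Pmu_pos (n : ℕ) : 0 < P (μ + 1) n := P_pos (by linarith) n

lemma chainY (hκ : κ = 2 * μ + 1 + δ) : ∀ n j, par (GY κ μ j) j n =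
    κ * ∑ p ∈ antidiagonal n, mom (AY κ μ) (BY δ μ) p.1 j * par (Fc κ μ) 0 p.2 := by
  have hf : ∀ n : ℕ, (n.factorial : ℝ) ≠ 0 := fun n => by exact_mod_cast n.factorial_ne_zero
  apply chain
  · simp [GY, Fc, P_zero, P_succ]
  · intro i
    have h1 := (Pmu_pos hμ i).ne'
    have h2 : μ + 1 + (i : ℝ) ≠ 0 := by
      have : (0 : ℝ) ≤ i := Nat.cast_nonneg i
      have : 0 < μ + 1 + (i : ℝ) := by linarith
      exact this.ne'
    have hfi := hf i
    simp only [GY, Fc, BY, if_true]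
    rw [show 0 + 2 * (i + 1) + 1 = (2 * i + 2) + 1 by ring, show 2 * (i + 1) = 2 * i + 2 by ring,
      show 1 + 2 * i + 1 = 2 * i + 2 by ring, P_succ κ (2 * i + 2), P_succ (μ + 1) i,
      show i + 1 + 0 = i + 1 by ring, Nat.factorial_succ,
      show (4 : ℝ) = 2 ^ 2 by norm_num, ← pow_mul, show 2 * (i + 1) = 2 * i + 2 by ring,
      show 0 + (2 * i + 2) = 2 * i + 2 by ring, pow_add, pow_add]
    push_cast
    field_simp
  · intro j
    have h1 := (Pmu_pos hμ j).ne'
    have h2 := mu_ne hμ j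
    simp only [GY, AY, Nat.factorial_zero, Nat.cast_one, mul_one, mul_zero, add_zero, zero_add]
    rw [P_succ κ (j + 1), P_succ (μ + 1) j]
    push_cast at h2 ⊢
    have h3 : μ + 1 + (j : ℝ) ≠ 0 := by rw [add_right_comm, add_assoc]; exact h2
    field_simp
    try ring
  · intro j i
    have h1 := (Pmu_pos hμ (i + j + 1)).ne'
    have h2 := mu_ne hμ j
    have h2' := mu_ne hμ (i + j + 1)
    have hfi := hf i
    simp only [GY, AY, BY, if_neg (Nat.succ_ne_zero j)]
    rw [show j + 1 + 2 * (i + 1) + 1 = (j + 2 * i + 3) + 1 by ring, P_succ κ (j + 2 * i + 3),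
      show j + 2 * (i + 1) + 1 = j + 2 * i + 3 by ring, show j + 2 + 2 * i + 1 = j + 2 * i + 3 by ring,
      show i + 1 + (j + 1) = (i + j + 1) + 1 by ring, show i + 1 + j = i + j + 1 by ring,
      show i + (j + 2) = (i + j + 1) + 1 by ring, P_succ (μ + 1) (i + j + 1), Nat.factorial_succ,
      show j + 1 + 2 * (i + 1) = (j + 2 * i + 2) + 1 by ring, show j + 2 * (i + 1) = j + 2 * i + 2 by ring,
      show j + 2 + 2 * i = j + 2 * i + 2 by ring, pow_succ]
    push_cast at h2 h2' ⊢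
    have h3 : μ + 1 + ((i : ℝ) + j + 1) ≠ 0 := by
      have e : μ + 1 + ((i : ℝ) + j + 1) = μ + (i + j + 1 + 1) := by ring
      rw [e]; exact h2'
    field_simp
    rw [hκ]
    ring

/-- the P chain -/
noncomputable def GP (κ μ : ℝ) (j i : ℕ) : ℝ :=
  P κ (j + 2 * i + 1) / (2 ^ (j + 2 * i + 1) * i.factorial * P (μ + 1) (i + j + 1))

noncomputable def AP (κ μ : ℝ) (j : ℕ) : ℝ := (κ + j) / (2 * (μ + 1 + j))
noncomputable def BP (δ μ : ℝ) (j : ℕ) : ℝ := (j + 1 - δ) / (2 * (μ + 1 + j))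

lemma chainP (hκ : κ = 2 * μ + 1 + δ) : ∀ n j, par (GP κ μ j) j n =
    (κ / (2 * (μ + 1))) * ∑ p ∈ antidiagonal n, mom (AP κ μ) (BP δ μ) p.1 j * par (Fc κ μ) 0 p.2 := by
  have hf : ∀ n : ℕ, (n.factorial : ℝ) ≠ 0 := fun n => by exact_mod_cast n.factorial_ne_zero
  have hm : μ + 1 ≠ 0 := by have : 0 < μ + 1 := by linarith
                            exact this.ne'
  apply chain
  · simp [GP, Fc, P_zero, P_succ]
  · intro i
    have h1 := (Pmu_pos hμ (i + 1)).ne'
    have h2 := mu_ne hμ (i + 1)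
    have hfi := hf i
    simp only [GP, Fc, BP]
    rw [show 0 + 2 * (i + 1) + 1 = (2 * i + 2) + 1 by ring, show 2 * (i + 1) = 2 * i + 2 by ring,
      show 1 + 2 * i + 1 = 2 * i + 2 by ring, P_succ κ (2 * i + 2),
      show i + 1 + 0 + 1 = (i + 1) + 1 by ring, P_succ (μ + 1) (i + 1), Nat.factorial_succ,
      show (4 : ℝ) = 2 ^ 2 by norm_num, ← pow_mul, show 2 * (i + 1) = 2 * i + 2 by ring,
      pow_succ _ (2 * i + 2)]
    push_cast at h2 ⊢
    have h3 : μ + 1 + ((i : ℝ) + 1) ≠ 0 := by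
      have e : μ + 1 + ((i : ℝ) + 1) = μ + (i + 1 + 1) := by ring
      rw [e]; exact h2
    have h4 : μ + 1 + (0 : ℝ) ≠ 0 := by rw [add_zero]; exact hm
    field_simp
    rw [hκ]
    ring
  · intro j
    have h1 := (Pmu_pos hμ (j + 1)).ne'
    have h2 := mu_ne hμ (j + 1)
    simp only [GP, AP, Nat.factorial_zero, Nat.cast_one, mul_one, mul_zero, add_zero, zero_add]
    rw [P_succ κ (j + 1), P_succ (μ + 1) (j + 1), pow_succ _ (j + 1)]
    push_cast at h2 ⊢
    have h3 : μ + 1 + ((j : ℝ) + 1) ≠ 0 := by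
      have e : μ + 1 + ((j : ℝ) + 1) = μ + (j + 1 + 1) := by ring
      rw [e]; exact h2
    field_simp
  · intro j i
    have h1 := (Pmu_pos hμ (i + j + 2)).ne'
    have h2 := mu_ne hμ (j + 1)
    have h2' := mu_ne hμ (i + j + 2)
    have hfi := hf i
    simp only [GP, AP, BP]
    rw [show j + 1 + 2 * (i + 1) + 1 = (j + 2 * i + 3) + 1 by ring, P_succ κ (j + 2 * i + 3),
      show j + 2 * (i + 1) + 1 = j + 2 * i + 3 by ring, show j + 2 + 2 * i + 1 = j + 2 * i + 3 by ring,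
      show i + 1 + (j + 1) + 1 = (i + j + 2) + 1 by ring, show i + 1 + j + 1 = i + j + 2 by ring,
      show i + (j + 2) + 1 = (i + j + 2) + 1 by ring, P_succ (μ + 1) (i + j + 2), Nat.factorial_succ,
      pow_succ _ (j + 2 * i + 3)]
    push_cast at h2 h2' ⊢
    have h3 : μ + 1 + ((i : ℝ) + j + 2) ≠ 0 := by
      have e : μ + 1 + ((i : ℝ) + j + 2) = μ + (i + j + 2 + 1) := by ring
      rw [e]; exact h2'
    have h4 : μ + 1 + ((j : ℝ) + 1) ≠ 0 := by
      have e : μ + 1 + ((j : ℝ) + 1) = μ + (j + 1 + 1) := by ring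
      rw [e]; exact h2
    field_simp
    rw [hκ]
    ring

/-- the Q chain -/
noncomputable def GQ (κ μ : ℝ) (j i : ℕ) : ℝ :=
  if j = 0 then P (κ - 1) (2 * i) / (4 ^ i * i.factorial * P (μ + 1) i)
  else P κ (j + 2 * i - 1) / (2 ^ (j + 2 * i) * i.factorial * P (μ + 1) (i + j))

noncomputable def AQ (κ μ : ℝ) (j : ℕ) : ℝ :=
  if j = 1 then 1 / (2 * (μ + 1)) else (κ + j - 2) / (2 * (μ + j))
noncomputable def BQ (δ μ : ℝ) (j : ℕ) : ℝ := if j = 0 then 1 - δ else (j + 1 - δ) / (2 * (μ + j))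

/-- difference sequence -/
noncomputable def dif (G : ℕ → ℝ) (i : ℕ) : ℝ := G i - (if i = 0 then 0 else G (i - 1))

lemma chainQ (hκ : κ = 2 * μ + 1 + δ) : ∀ n j, par (GQ κ μ j) j n =
    1 * ∑ p ∈ antidiagonal n, mom (AQ κ μ) (BQ δ μ) p.1 j * par (dif (Fc κ μ)) 0 p.2 := by
  have hf : ∀ n : ℕ, (n.factorial : ℝ) ≠ 0 := fun n => by exact_mod_cast n.factorial_ne_zero
  have hm : μ + 1 ≠ 0 := by have : 0 < μ + 1 := by linarith
                            exact this.ne'
  apply chain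
  · simp [GQ, Fc, P_zero, dif]
  · intro i
    have h1 := (Pmu_pos hμ i).ne'
    have h2 := mu_ne hμ i
    have hfi := hf i
    simp only [GQ, Fc, BQ, dif, if_true, if_neg (Nat.succ_ne_zero i), if_neg one_ne_zero, Nat.add_sub_cancel]
    rw [show 1 + 2 * i - 1 = 2 * i by omega, show 2 * (i + 1) = (2 * i + 1) + 1 by ring,
      P_succ' (κ - 1) (2 * i + 1), show κ - 1 + 1 = κ by ring, P_succ κ (2 * i + 1), P_succ κ (2 * i),
      P_succ (μ + 1) i, Nat.factorial_succ, pow_succ (4 : ℝ) i, show (4 : ℝ) = 2 ^ 2 by norm_num, ← pow_mul,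
      show 1 + 2 * i = 2 * i + 1 by ring, pow_succ (2 : ℝ) (2 * i)]
    push_cast at h2 ⊢
    have h3 : μ + 1 + (i : ℝ) ≠ 0 := by
      have e : μ + 1 + (i : ℝ) = μ + (i + 1) := by ring
      rw [e]; exact h2
    field_simp
    rw [hκ]
    ring
  · intro j
    rcases j with _ | j
    · simp [GQ, AQ, P_zero, P_succ]
    · have h1 := (Pmu_pos hμ (j + 1)).ne'
      have h2 := mu_ne hμ (j + 1)
      simp only [GQ, AQ, if_neg (Nat.succ_ne_zero _), Nat.factorial_zero, Nat.cast_one, mul_one, mul_zero,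
        add_zero, zero_add]
      rw [if_neg (by omega), show j + 1 + 1 - 1 = j + 1 by omega, show j + 1 - 1 = j by omega,
        P_succ κ j, P_succ (μ + 1) (j + 1), pow_succ _ (j + 1)]
      push_cast at h2 ⊢
      have h3 : μ + 1 + ((j : ℝ) + 1) ≠ 0 := by
        have e : μ + 1 + ((j : ℝ) + 1) = μ + (j + 1 + 1) := by ring
        rw [e]; exact h2
      field_simp
      ring
  · intro j i
    rcases j with _ | j
    · have h1 := (Pmu_pos hμ (i + 1)).ne'
      have h2' := mu_ne hμ (i + 1)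
      have hfi := hf i
      simp only [GQ, AQ, BQ, if_true, if_neg one_ne_zero, zero_add, if_neg two_ne_zero]
      rw [show 1 + 2 * (i + 1) - 1 = (2 * i + 1) + 1 by omega, show 2 * (i + 1) = (2 * i + 1) + 1 by ring,
        P_succ' (κ - 1) (2 * i + 1), show κ - 1 + 1 = κ by ring, P_succ κ (2 * i + 1),
        show 2 + 2 * i - 1 = 2 * i + 1 by omega, show i + 1 + 1 = (i + 1) + 1 by ring,
        show i + 2 = (i + 1) + 1 by ring, P_succ (μ + 1) (i + 1), Nat.factorial_succ,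
        show (4 : ℝ) = 2 ^ 2 by norm_num, ← pow_mul, show 2 * (i + 1) = 2 * i + 2 by ring,
        show 1 + (2 * i + 1 + 1) = (2 * i + 2) + 1 by ring, pow_succ (2 : ℝ) (2 * i + 2),
        show 2 + 2 * i = 2 * i + 2 by ring]
      push_cast at h2' ⊢
      have h3 : μ + 1 + ((i : ℝ) + 1) ≠ 0 := by
        have e : μ + 1 + ((i : ℝ) + 1) = μ + (i + 1 + 1) := by ring
        rw [e]; exact h2'
      field_simp
      rw [hκ]
      ring
    · have h1 := (Pmu_pos hμ (i + j + 2)).ne'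
      have h2 := mu_ne hμ (j + 1)
      have h2' := mu_ne hμ (i + j + 2)
      have hfi := hf i
      simp only [GQ, AQ, BQ, if_neg (Nat.succ_ne_zero _)]
      rw [if_neg (by omega)]
      rw [show j + 1 + 1 + 2 * (i + 1) - 1 = (j + 2 * i + 2) + 1 by omega, P_succ κ (j + 2 * i + 2),
        show j + 1 + 2 * (i + 1) - 1 = j + 2 * i + 2 by omega,
        show j + 1 + 2 + 2 * i - 1 = j + 2 * i + 2 by omega,
        show i + 1 + (j + 1 + 1) = (i + j + 2) + 1 by ring, show i + 1 + (j + 1) = i + j + 2 by ring,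
        show i + (j + 1 + 2) = (i + j + 2) + 1 by ring, P_succ (μ + 1) (i + j + 2), Nat.factorial_succ,
        show j + 1 + 1 + 2 * (i + 1) = (j + 2 * i + 3) + 1 by ring, show j + 1 + 2 * (i + 1) = j + 2 * i + 3 by ring,
        show j + 1 + 2 + 2 * i = j + 2 * i + 3 by ring, pow_succ _ (j + 2 * i + 3)]
      push_cast at h2 h2' ⊢
      have h3 : μ + 1 + ((i : ℝ) + j + 2) ≠ 0 := by
        have e : μ + 1 + ((i : ℝ) + j + 2) = μ + (i + j + 2 + 1) := by ring
        rw [e]; exact h2'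
      have h4 : μ + ((j : ℝ) + 1 + 1) ≠ 0 := h2
      field_simp
      rw [hκ]
      ring

end

end Q287.MK
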