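import Pool.Agent.Q287.MK.MK1

open Finset

namespace Q287.MK

/-- the power series with coefficients `G` in the variable `X²` -/
noncomputable def ser (G : ℕ → ℝ) : PowerSeries ℝ := PowerSeries.mk (par G 0)

lemma par0_even (G : ℕ → ℝ) (i : ℕ) : par G 0 (2 * i) = G i := by
  have := par_even G 0 i
  rwa [zero_add] at this

lemma par0_odd (G : ℕ → ℝ) (i : ℕ) : par G 0 (2 * i + 1) = 0 := by
  have := par_odd G 0 i
  rwa [zero_add] at this

/-- shift -/
noncomputable def shf (G : ℕ → ℝ) (i : ℕ) : ℝ := if i = 0 then 0 else G (i - 1)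

lemma ser_shf (G : ℕ → ℝ) : PowerSeries.X ^ 2 * ser G = ser (shf G) := by
  ext n
  rw [PowerSeries.coeff_X_pow_mul']
  simp only [ser, PowerSeries.coeff_mk]
  rcases Nat.even_or_odd' n with ⟨i, hi | hi⟩
  · subst hi
    rw [par0_even (shf G)]
    rcases i with _ | i
    · simp [shf]
    · rw [if_pos (by omega), show 2 * (i + 1) - 2 = 2 * i by omega, par0_even]
      simp [shf]
  · subst hi
    rw [par0_odd (shf G)]
    rcases i with _ | i
    · simp
    · rw [if_pos (by omega), show 2 * (i + 1) + 1 - 2 = 2 * i + 1 by omega, par0_odd]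

lemma ser_add (G G' : ℕ → ℝ) : ser G + ser G' = ser (fun i => G i + G' i) := by
  ext n
  unfold ser
  rw [map_add, PowerSeries.coeff_mk, PowerSeries.coeff_mk, PowerSeries.coeff_mk]
  unfold par
  split_ifs <;> simp

lemma ser_sub (G G' : ℕ → ℝ) : ser G - ser G' = ser (fun i => G i - G' i) := by
  ext n
  unfold ser
  rw [map_sub, PowerSeries.coeff_mk, PowerSeries.coeff_mk, PowerSeries.coeff_mk]
  unfold par
  split_ifs <;> simp

lemma ser_smul (c : ℝ) (G : ℕ → ℝ) : PowerSeries.C c * ser G = ser (fun i => c * G i) := by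
  ext n
  rw [PowerSeries.coeff_C_mul]
  unfold ser
  rw [PowerSeries.coeff_mk, PowerSeries.coeff_mk]
  unfold par
  split_ifs <;> simp

lemma ser_congr {G G' : ℕ → ℝ} (h : ∀ i, G i = G' i) : ser G = ser G' := by
  have : G = G' := funext h
  rw [this]

lemma ser_dif (G : ℕ → ℝ) : (1 - PowerSeries.X ^ 2) * ser G = ser (dif G) := by
  rw [sub_mul, one_mul, ser_shf, ser_sub]
  rfl

section
variable {κ μ δ : ℝ} (hμ : -1 < μ)
include hμ

/-- the sequence `k_n` -/
noncomputable def kk (κ μ δ : ℝ) (n : ℕ) : ℝ := κ * mom (AY κ μ) (BY δ μ) n 0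

lemma k_mul_F (hκ : κ = 2 * μ + 1 + δ) :
    PowerSeries.mk (kk κ μ δ) * ser (Fc κ μ) = ser (GY κ μ 0) := by
  ext n
  unfold ser
  rw [PowerSeries.coeff_mul, PowerSeries.coeff_mk, chainY hμ hκ n 0, mul_sum]
  apply sum_congr rfl
  intro p _
  rw [PowerSeries.coeff_mk, PowerSeries.coeff_mk]
  unfold kk
  ring

lemma v_mul_F (hκ : κ = 2 * μ + 1 + δ) :
    PowerSeries.mk (fun n => κ / (2 * (μ + 1)) * mom (AP κ μ) (BP δ μ) n 0) * ser (Fc κ μ) = ser (GP κ μ 0) := by
  ext n
  unfold ser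
  rw [PowerSeries.coeff_mul, PowerSeries.coeff_mk, chainP hμ hκ n 0, mul_sum]
  apply sum_congr rfl
  intro p _
  rw [PowerSeries.coeff_mk, PowerSeries.coeff_mk]
  ring

lemma phi_mul (hκ : κ = 2 * μ + 1 + δ) :
    PowerSeries.mk (fun n => mom (AQ κ μ) (BQ δ μ) n 0) * ser (dif (Fc κ μ)) = ser (GQ κ μ 0) := by
  ext n
  unfold ser
  rw [PowerSeries.coeff_mul, PowerSeries.coeff_mk, chainQ hμ hκ n 0, one_mul]
  apply sum_congr rfl
  intro p _
  rw [PowerSeries.coeff_mk, PowerSeries.coeff_mk]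

lemma F_ne : ser (Fc κ μ) ≠ 0 := by
  intro h
  have := congrArg (PowerSeries.coeff 0) h
  unfold ser at this
  rw [PowerSeries.coeff_mk, map_zero] at this
  have h1 := par0_even (Fc κ μ) 0
  rw [mul_zero, this] at h1
  simp [Fc, P_zero] at h1

/-- coefficient identity for the P chain -/
lemma idP (hκ : κ = 2 * μ + 1 + δ) (i : ℕ) :
    dif (GY κ μ 0) i = κ * Fc κ μ i + δ * shf (GP κ μ 0) i := by
  rcases i with _ | i
  · simp [dif, GY, Fc, shf, P_zero, P_succ]
  · have hf : (i.factorial : ℝ) ≠ 0 := by exact_mod_cast i.factorial_ne_zero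
    have h1 := (Pmu_pos hμ i).ne'
    have h2 := mu_ne hμ i
    simp only [dif, GY, Fc, shf, GP, if_neg (Nat.succ_ne_zero i), Nat.add_sub_cancel, zero_add, add_zero]
    rw [show 2 * (i + 1) + 1 = (2 * i + 1 + 1) + 1 by ring, show 2 * (i + 1) = 2 * i + 1 + 1 by ring,
      P_succ κ (2 * i + 1 + 1), P_succ κ (2 * i + 1), P_succ (μ + 1) i, Nat.factorial_succ,
      show (4 : ℝ) = 2 ^ 2 by norm_num, ← pow_mul, show 2 * (i + 1) = 2 * i + 2 by ring,
      show 2 * i + 1 + 1 = 2 * i + 2 by ring, pow_add (2 : ℝ) (2 * i) 2, pow_succ (2 : ℝ) (2 * i)]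
    push_cast at h2 ⊢
    have h3 : μ + 1 + (i : ℝ) ≠ 0 := by
      have e : μ + 1 + (i : ℝ) = μ + (i + 1) := by ring
      rw [e]; exact h2
    field_simp
    rw [hκ]
    ring

/-- coefficient identity for the Q chain -/
lemma idQ (hκ : κ = 2 * μ + 1 + δ) (i : ℕ) :
    dif (GY κ μ 0) i = (κ + δ) * Fc κ μ i - δ * GQ κ μ 0 i := by
  rcases i with _ | i
  · simp [dif, GY, Fc, GQ, P_zero, P_succ]
  · have hf : (i.factorial : ℝ) ≠ 0 := by exact_mod_cast i.factorial_ne_zero
    have h1 := (Pmu_pos hμ i).ne'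
    have h2 := mu_ne hμ i
    simp only [dif, GY, Fc, GQ, if_neg (Nat.succ_ne_zero i), Nat.add_sub_cancel, zero_add, add_zero, if_true]
    rw [show 2 * (i + 1) + 1 = (2 * i + 1 + 1) + 1 by ring, show 2 * (i + 1) = 2 * i + 1 + 1 by ring,
      P_succ' (κ - 1) (2 * i + 1), show κ - 1 + 1 = κ by ring,
      P_succ κ (2 * i + 1 + 1), P_succ κ (2 * i + 1), P_succ (μ + 1) i, Nat.factorial_succ,
      show (4 : ℝ) = 2 ^ 2 by norm_num, ← pow_mul, show 2 * (i + 1) = 2 * i + 2 by ring,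
      show 2 * i + 1 + 1 = 2 * i + 2 by ring, pow_add (2 : ℝ) (2 * i) 2]
    push_cast at h2 ⊢
    have h3 : μ + 1 + (i : ℝ) ≠ 0 := by
      have e : μ + 1 + (i : ℝ) = μ + (i + 1) := by ring
      rw [e]; exact h2
    field_simp
    rw [hκ]
    ring

lemma one_sub_ne : (1 - PowerSeries.X ^ 2 : PowerSeries ℝ) ≠ 0 := by
  intro h
  have := congrArg (PowerSeries.coeff 0) h
  simp at this

omit hμ in
lemma one_sub_mul_even : (1 - PowerSeries.X ^ 2 : PowerSeries ℝ) * PowerSeries.mk (fun n => if n % 2 = 0 then 1 else 0) = 1 := by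
  have h : PowerSeries.mk (fun n => if n % 2 = 0 then (1 : ℝ) else 0) = ser (fun _ => 1) := by
    ext n
    unfold ser par
    simp
  rw [h, ser_dif]
  ext n
  unfold ser
  rw [PowerSeries.coeff_mk, PowerSeries.coeff_one]
  rcases Nat.even_or_odd' n with ⟨i, hi | hi⟩
  · subst hi
    rw [par0_even]
    rcases i with _ | i
    · simp [dif]
    · simp [dif]
  · subst hi
    rw [par0_odd, if_neg (by omega)]

lemma kk_zero : kk κ μ δ 0 = κ := by simp [kk, mom_zero]

lemma kk_one : kk κ μ δ 1 = 0 := by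
  unfold kk; rw [mom_odd _ _ 1 0 (by norm_num), mul_zero]

/-- `k_{n+2} = k_n + δ v_n` -/
lemma kk_P (hκ : κ = 2 * μ + 1 + δ) (n : ℕ) :
    kk κ μ δ (n + 2) = kk κ μ δ n + δ * (κ / (2 * (μ + 1)) * mom (AP κ μ) (BP δ μ) n 0) := by
  have h1 : ((1 - PowerSeries.X ^ 2) * PowerSeries.mk (kk κ μ δ) - PowerSeries.C κ
      - PowerSeries.C δ * (PowerSeries.X ^ 2 *
        PowerSeries.mk (fun n => κ / (2 * (μ + 1)) * mom (AP κ μ) (BP δ μ) n 0))) * ser (Fc κ μ) = 0 := by
    have e1 := k_mul_F hμ hκ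
    have e2 := v_mul_F hμ hκ
    have e3 : (1 - PowerSeries.X ^ 2) * ser (GY κ μ 0) =
        PowerSeries.C κ * ser (Fc κ μ) + PowerSeries.C δ * (PowerSeries.X ^ 2 * ser (GP κ μ 0)) := by
      rw [ser_dif, ser_smul, ser_shf, ser_smul, ser_add]
      exact ser_congr (fun i => idP hμ hκ i)
    rw [← e1, ← e2] at e3
    linear_combination e3
  have h2 := (mul_eq_zero.mp h1).resolve_right (F_ne hμ)
  have h3 := congrArg (PowerSeries.coeff (n + 2)) h2
  rw [sub_mul, one_mul, map_sub, map_sub, map_sub, PowerSeries.coeff_mk, PowerSeries.coeff_X_pow_mul,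
    PowerSeries.coeff_mk, PowerSeries.coeff_C, if_neg (by omega), PowerSeries.coeff_C_mul,
    PowerSeries.coeff_X_pow_mul, PowerSeries.coeff_mk, map_zero] at h3
  linarith

/-- `k_n = (κ+δ)[n even] - δ φ_n` -/
lemma kk_Q (hκ : κ = 2 * μ + 1 + δ) (n : ℕ) :
    kk κ μ δ n = (κ + δ) * (if n % 2 = 0 then 1 else 0) - δ * mom (AQ κ μ) (BQ δ μ) n 0 := by
  have h1 : (PowerSeries.mk (kk κ μ δ) - PowerSeries.C (κ + δ) * PowerSeries.mk (fun n => if n % 2 = 0 then (1 : ℝ) else 0)
      + PowerSeries.C δ * PowerSeries.mk (fun n => mom (AQ κ μ) (BQ δ μ) n 0)) *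
        ((1 - PowerSeries.X ^ 2) * ser (Fc κ μ)) = 0 := by
    have e1 := k_mul_F hμ hκ
    have e2 := phi_mul hμ hκ
    rw [← ser_dif] at e2
    have e3 : (1 - PowerSeries.X ^ 2) * ser (GY κ μ 0) =
        PowerSeries.C (κ + δ) * ser (Fc κ μ) - PowerSeries.C δ * ser (GQ κ μ 0) := by
      rw [ser_dif, ser_smul, ser_smul, ser_sub]
      exact ser_congr (fun i => idQ hμ hκ i)
    rw [← e1, ← e2] at e3
    have e4 := one_sub_mul_even
    linear_combination e3 - PowerSeries.C (κ + δ) * ser (Fc κ μ) * e4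
  have h2 := (mul_eq_zero.mp h1).resolve_right (mul_ne_zero (one_sub_ne hμ) (F_ne hμ))
  have h3 := congrArg (PowerSeries.coeff n) h2
  rw [map_add, map_sub, PowerSeries.coeff_mk, PowerSeries.coeff_C_mul, PowerSeries.coeff_mk,
    PowerSeries.coeff_C_mul, PowerSeries.coeff_mk, map_zero] at h3
  linarith

/-- for `δ ≤ 1` all `k_n ≥ 0` -/
lemma kk_nonneg (hκ : κ = 2 * μ + 1 + δ) (hκ0 : 0 < κ) (hδ : δ ≤ 1) (n : ℕ) : 0 ≤ kk κ μ δ n := by
  rcases le_total δ 0 with h | h
  · apply mul_nonneg hκ0.le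
    apply mom_nonneg
    · intro j
      have : (0 : ℝ) ≤ j := Nat.cast_nonneg j
      unfold AY
      push_cast
      apply div_nonneg <;> linarith
    · intro j
      unfold BY
      split_ifs with hj
      · norm_num
      · have : (1 : ℝ) ≤ j := by exact_mod_cast Nat.one_le_iff_ne_zero.mpr hj
        apply div_nonneg <;> linarith
  · have hv : ∀ m, 0 ≤ mom (AP κ μ) (BP δ μ) m 0 := by
      intro m
      apply mom_nonneg
      · intro j
        have : (0 : ℝ) ≤ j := Nat.cast_nonneg j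
        unfold AP
        push_cast
        apply div_nonneg <;> linarith
      · intro j
        have : (0 : ℝ) ≤ j := Nat.cast_nonneg j
        unfold BP
        apply div_nonneg <;> linarith
    have hm : 0 < μ + 1 := by linarith
    induction n using Nat.strong_induction_on with
    | _ n ih =>
      match n with
      | 0 => rw [kk_zero hμ]; exact hκ0.le
      | 1 => rw [kk_one hμ]
      | (n + 2) =>
        rw [kk_P hμ hκ]
        have := ih n (by omega)
        have := hv n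
        positivity

end

end Q287.MK
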