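import Pool.Agent.Q287.MK.MK2

open Finset Filter Topology

namespace Q287.MK

/-- exponential generating function -/
noncomputable def ef (a : ℕ → ℝ) (x : ℝ) : ℝ := ∑' n : ℕ, a n * x ^ n / n.factorial

lemma ef_summ {a : ℕ → ℝ} {M C : ℝ} (ha : ∀ n, |a n| ≤ M * C ^ n) (x : ℝ) :
    Summable (fun n : ℕ => ‖a n * x ^ n / n.factorial‖) := by
  have hs : Summable (fun n : ℕ => M * ((C * |x|) ^ n / n.factorial)) :=
    (Real.summable_pow_div_factorial (C * |x|)).mul_left _
  refine Summable.of_nonneg_of_le (fun n => norm_nonneg _) (fun n => ?_) hs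
  rw [norm_div, norm_mul, norm_pow, Real.norm_eq_abs, Real.norm_eq_abs, Real.norm_eq_abs, Nat.abs_cast]
  have hf : (0 : ℝ) < n.factorial := by exact_mod_cast n.factorial_pos
  rw [mul_pow, mul_div_assoc', ← mul_assoc]
  gcongr
  exact ha n

lemma ef_hasDerivAt {a : ℕ → ℝ} {M C : ℝ} (hC : 0 ≤ C) (ha : ∀ n, |a n| ≤ M * C ^ n) (x : ℝ) :
    HasDerivAt (ef a) (ef (fun n => a (n + 1)) x) x := by
  have hM : 0 ≤ M := by have := (abs_nonneg _).trans (ha 0); simpa using this
  set R : ℝ := |x| + 1 with hR
  have hR0 : 0 < R := by positivity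
  have key : HasDerivAt (fun z => ∑' n : ℕ, a n * z ^ n / n.factorial)
      (∑' n : ℕ, a n * (n * x ^ (n - 1)) / n.factorial) x := by
    refine hasDerivAt_tsum_of_isPreconnected (𝕜 := ℝ) (F := ℝ)
      (u := fun n : ℕ => (M * C ^ n) * (n * R ^ (n - 1)) / n.factorial)
      (g := fun n z => a n * z ^ n / n.factorial) (g' := fun n z => a n * (n * z ^ (n - 1)) / n.factorial)
      (t := Metric.ball (0 : ℝ) R) (y₀ := 0) ?_ Metric.isOpen_ball
      (convex_ball (0 : ℝ) R).isPreconnected ?_ ?_ (by simpa using hR0) ?_ ?_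
    · rw [← summable_nat_add_iff 1]
      refine ((Real.summable_pow_div_factorial (C * R)).mul_left (M * C)).congr (fun n => ?_)
      rw [Nat.factorial_succ, Nat.add_sub_cancel]
      have hf : (0 : ℝ) < n.factorial := by exact_mod_cast n.factorial_pos
      push_cast
      rw [mul_pow, pow_succ]
      field_simp
    · intro n y _
      exact ((hasDerivAt_pow n y).const_mul (a n)).div_const _
    · intro n y hy
      have hy' : |y| ≤ R := by
        have := Metric.mem_ball.mp hy
        rw [dist_zero_right, Real.norm_eq_abs] at this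
        exact this.le
      have hf : (0 : ℝ) < n.factorial := by exact_mod_cast n.factorial_pos
      rw [norm_div, norm_mul, norm_mul, norm_pow, Real.norm_eq_abs, Real.norm_eq_abs, Real.norm_eq_abs,
        Real.norm_eq_abs, Nat.abs_cast, Nat.abs_cast]
      gcongr
      exact ha n
    · exact (ef_summ ha 0).of_norm
    · rw [Metric.mem_ball, dist_zero_right, Real.norm_eq_abs]; linarith
  have e : (∑' n : ℕ, a n * (n * x ^ (n - 1)) / n.factorial) = ef (fun n => a (n + 1)) x := by
    have ha' : ∀ n, |a (n + 1)| ≤ (M * C) * C ^ n := fun n => (ha (n + 1)).trans_eq (by ring)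
    have hs : Summable (fun n : ℕ => a (n + 1) * (((n + 1 : ℕ) : ℝ) * x ^ (n + 1 - 1)) / (n + 1).factorial) := by
      refine (ef_summ ha' x).of_norm.congr (fun n => ?_)
      rw [Nat.factorial_succ, Nat.add_sub_cancel]
      have hf : (0 : ℝ) < n.factorial := by exact_mod_cast n.factorial_pos
      push_cast
      field_simp
    rw [Summable.tsum_eq_zero_add ((summable_nat_add_iff 1).mp hs)]
    simp only [Nat.cast_zero, zero_mul, mul_zero, zero_div, zero_add]
    unfold ef
    apply tsum_congr
    intro n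
    rw [Nat.factorial_succ, Nat.add_sub_cancel]
    have hf : (0 : ℝ) < n.factorial := by exact_mod_cast n.factorial_pos
    push_cast
    field_simp
  rw [← e]
  exact key

lemma ef_zero (a : ℕ → ℝ) : ef a 0 = a 0 := by
  unfold ef
  rw [tsum_eq_single 0]
  · simp
  · intro n hn; simp [hn]

lemma ef_lin {a b : ℕ → ℝ} {M C M' C' : ℝ} (ha : ∀ n, |a n| ≤ M * C ^ n) (hb : ∀ n, |b n| ≤ M' * C' ^ n)
    (p q x : ℝ) : ef (fun n => p * a n + q * b n) x = p * ef a x + q * ef b x := by
  unfold ef
  rw [← tsum_mul_left, ← tsum_mul_left, ← Summable.tsum_add ((ef_summ ha x).of_norm.mul_left p)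
    ((ef_summ hb x).of_norm.mul_left q)]
  apply tsum_congr
  intro n
  ring

/-- the functions of the tridiagonal system -/
noncomputable def uu (A B : ℕ → ℝ) (j : ℕ) (x : ℝ) : ℝ := ef (fun n => mom A B n j) x

section
variable {A B : ℕ → ℝ} {C : ℝ} (hA' : ∀ j, |A (j + 1)| ≤ C) (hB' : ∀ j, |B j| ≤ C)
include hA' hB'

lemma mb (j n : ℕ) : |mom A B n j| ≤ 1 * (2 * C) ^ n := by
  rw [one_mul]; exact mom_bound A B C hA' hB' n j

lemma C_nonneg : 0 ≤ C := (abs_nonneg _).trans (hB' 0)

lemma uu_deriv_zero (x : ℝ) : HasDerivAt (uu A B 0) (B 0 * uu A B 1 x) x := by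
  have h := ef_hasDerivAt (by linarith [C_nonneg hA' hB']) (mb hA' hB' 0) x
  have e : ef (fun n => mom A B (n + 1) 0) x = B 0 * uu A B 1 x := by
    have := ef_lin (mb hA' hB' 1) (mb hA' hB' 1) (B 0) 0 x
    simp only [zero_mul, add_zero] at this
    simp only [mom_succ_zero]
    exact this
  rw [← e]; exact h

lemma uu_deriv_succ (j : ℕ) (x : ℝ) :
    HasDerivAt (uu A B (j + 1)) (A (j + 1) * uu A B j x + B (j + 1) * uu A B (j + 2) x) x := by
  have h := ef_hasDerivAt (by linarith [C_nonneg hA' hB']) (mb hA' hB' (j + 1)) x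
  have e : ef (fun n => mom A B (n + 1) (j + 1)) x = A (j + 1) * uu A B j x + B (j + 1) * uu A B (j + 2) x := by
    have := ef_lin (mb hA' hB' j) (mb hA' hB' (j + 2)) (A (j + 1)) (B (j + 1)) x
    simp only [mom_succ_succ]
    exact this
  rw [← e]; exact h

omit hA' hB' in
lemma uu_zero (j : ℕ) : uu A B j 0 = if j = 0 then 1 else 0 := by
  unfold uu; rw [ef_zero, mom_zero]

/-- weights -/
noncomputable def om (A B : ℕ → ℝ) : ℕ → ℝ
  | 0 => 1
  | (j + 1) => om A B j * B j / A (j + 1)

omit hA' hB' in
lemma om_succ (hA : ∀ j, 0 < A (j + 1)) (j : ℕ) : om A B (j + 1) * A (j + 1) = om A B j * B j := by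
  rw [om]; have := (hA j).ne'; field_simp

/-- derivative of the weighted bilinear form -/
lemma W_deriv (hA : ∀ j, 0 < A (j + 1)) (N : ℕ) (hBN : B N = 0) (s : ℕ → ℝ) (v : ℕ → ℝ) (y : ℝ) :
    HasDerivAt (fun y => ∑ j ∈ range (N + 1), s j * om A B j * uu A B j y * v j)
      (∑ j ∈ range N, om A B j * B j * (s j * uu A B (j + 1) y * v j + s (j + 1) * uu A B j y * v (j + 1))) y := by
  have h1 : HasDerivAt (fun y => ∑ j ∈ range (N + 1), s j * om A B j * uu A B j y * v j)
      (∑ j ∈ range (N + 1), s j * om A B j * (if j = 0 then B 0 * uu A B 1 y else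
        A j * uu A B (j - 1) y + B j * uu A B (j + 1) y) * v j) y := by
    apply HasDerivAt.fun_sum
    intro j _
    apply HasDerivAt.mul_const
    apply HasDerivAt.const_mul
    rcases j with _ | j
    · simpa using uu_deriv_zero hA' hB' y
    · simpa using uu_deriv_succ hA' hB' j y
  refine h1.congr_deriv ?_
  have e1 : (∑ j ∈ range (N + 1), s j * om A B j * (if j = 0 then B 0 * uu A B 1 y else
        A j * uu A B (j - 1) y + B j * uu A B (j + 1) y) * v j) =
      (∑ j ∈ range (N + 1), s j * om A B j * (B j * uu A B (j + 1) y) * v j) +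
      ∑ j ∈ range (N + 1), s j * om A B j * (if j = 0 then 0 else A j * uu A B (j - 1) y) * v j := by
    rw [← sum_add_distrib]
    apply sum_congr rfl
    intro j _
    rcases j with _ | j
    · simp
    · simp; ring
  rw [e1, sum_range_succ, hBN, sum_range_succ']
  simp only [if_true, mul_zero, zero_mul, add_zero, if_neg (Nat.succ_ne_zero _), Nat.add_sub_cancel]
  rw [← sum_add_distrib]
  apply sum_congr rfl
  intro j _
  have := om_succ (A := A) (B := B) hA j
  linear_combination (s (j + 1) * uu A B j y * v (j + 1)) * this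

lemma uu_cont (j : ℕ) : Continuous (uu A B j) := by
  rw [continuous_iff_continuousAt]
  intro x
  rcases j with _ | j
  · exact (uu_deriv_zero hA' hB' x).continuousAt
  · exact (uu_deriv_succ hA' hB' j x).continuousAt

/-- derivative of weighted square sums -/
lemma E_deriv (hA : ∀ j, 0 < A (j + 1)) (N : ℕ) (hBN : B N = 0) (s : ℕ → ℝ) (y : ℝ) :
    HasDerivAt (fun y => ∑ j ∈ range (N + 1), s j * om A B j * uu A B j y ^ 2)
      (∑ j ∈ range N, om A B j * B j * ((s j + s (j + 1)) * (2 * uu A B j y * uu A B (j + 1) y))) y := by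
  have hd : ∀ j, HasDerivAt (uu A B j) (if j = 0 then B 0 * uu A B 1 y else
        A j * uu A B (j - 1) y + B j * uu A B (j + 1) y) y := by
    intro j
    rcases j with _ | j
    · simpa using uu_deriv_zero hA' hB' y
    · simpa using uu_deriv_succ hA' hB' j y
  have h1 : HasDerivAt (fun y => ∑ j ∈ range (N + 1), s j * om A B j * uu A B j y ^ 2)
      (∑ j ∈ range (N + 1), s j * om A B j * (2 * uu A B j y * (if j = 0 then B 0 * uu A B 1 y else
        A j * uu A B (j - 1) y + B j * uu A B (j + 1) y))) y := by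
    apply HasDerivAt.fun_sum
    intro j _
    apply HasDerivAt.const_mul
    have h2 : HasDerivAt (fun y => uu A B j y ^ 2) _ y := (hd j).pow 2
    refine h2.congr_deriv ?_
    push_cast
    ring
  refine h1.congr_deriv ?_
  have e1 : (∑ j ∈ range (N + 1), s j * om A B j * (2 * uu A B j y * (if j = 0 then B 0 * uu A B 1 y else
        A j * uu A B (j - 1) y + B j * uu A B (j + 1) y))) =
      (∑ j ∈ range (N + 1), s j * om A B j * (2 * uu A B j y * (B j * uu A B (j + 1) y))) +
      ∑ j ∈ range (N + 1), s j * om A B j * (2 * uu A B j y * (if j = 0 then 0 else A j * uu A B (j - 1) y)) := by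
    rw [← sum_add_distrib]
    apply sum_congr rfl
    intro j _
    rcases j with _ | j
    · simp
    · simp; ring
  rw [e1, sum_range_succ, hBN, sum_range_succ']
  simp only [if_true, mul_zero, zero_mul, add_zero, if_neg (Nat.succ_ne_zero _), Nat.add_sub_cancel]
  rw [← sum_add_distrib]
  apply sum_congr rfl
  intro j _
  have := om_succ (A := A) (B := B) hA j
  linear_combination (s (j + 1) * (2 * uu A B (j + 1) y * uu A B j y)) * this

/-- conserved quantity -/
lemma E_one (hA : ∀ j, 0 < A (j + 1)) (N : ℕ) (hBN : B N = 0) (y : ℝ) :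
    ∑ j ∈ range (N + 1), (-1) ^ j * om A B j * uu A B j y ^ 2 = 1 := by
  have hd : ∀ y, HasDerivAt (fun y => ∑ j ∈ range (N + 1), (-1) ^ j * om A B j * uu A B j y ^ 2) 0 y := by
    intro y
    refine (E_deriv hA' hB' hA N hBN (fun j => (-1) ^ j) y).congr_deriv ?_
    apply sum_eq_zero
    intro j _
    rw [pow_succ]; ring
  have hc := is_const_of_deriv_eq_zero (f := fun y => ∑ j ∈ range (N + 1), (-1) ^ j * om A B j * uu A B j y ^ 2)
    (fun y => (hd y).differentiableAt) (fun y => (hd y).deriv) y 0
  rw [hc, sum_range_succ']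
  simp [uu_zero, om]

/-- doubling formula -/
lemma E_double (hA : ∀ j, 0 < A (j + 1)) (N : ℕ) (hBN : B N = 0) (y : ℝ) :
    uu A B 0 (2 * y) = ∑ j ∈ range (N + 1), om A B j * uu A B j y ^ 2 := by
  have hd : ∀ j x, HasDerivAt (uu A B j) (if j = 0 then B 0 * uu A B 1 x else
        A j * uu A B (j - 1) x + B j * uu A B (j + 1) x) x := by
    intro j x
    rcases j with _ | j
    · simpa using uu_deriv_zero hA' hB' x
    · simpa using uu_deriv_succ hA' hB' j x
  -- h(t) = Σ ω_j u_j(y+t) u_j(y-t)
  have hW : ∀ t : ℝ, HasDerivAt (fun t => ∑ j ∈ range (N + 1), om A B j * uu A B j (y + t) * uu A B j (y - t)) 0 t := by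
    intro t
    have h1 : HasDerivAt (fun t => ∑ j ∈ range (N + 1), om A B j * uu A B j (y + t) * uu A B j (y - t))
        (∑ j ∈ range (N + 1), (om A B j * ((if j = 0 then B 0 * uu A B 1 (y + t) else
          A j * uu A B (j - 1) (y + t) + B j * uu A B (j + 1) (y + t)) * 1) * uu A B j (y - t) +
          om A B j * uu A B j (y + t) * ((if j = 0 then B 0 * uu A B 1 (y - t) else
          A j * uu A B (j - 1) (y - t) + B j * uu A B (j + 1) (y - t)) * (-1)))) t := by
      apply HasDerivAt.fun_sum
      intro j _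
      have g1 : HasDerivAt (fun t => y + t) 1 t := by simpa using (hasDerivAt_id t).const_add y
      have g2 : HasDerivAt (fun t => y - t) (-1) t := by simpa using (hasDerivAt_id t).const_sub y
      have k1 := (hd j (y + t)).comp t g1
      have k2 := (hd j (y - t)).comp t g2
      exact (k1.const_mul (om A B j)).mul k2
    refine h1.congr_deriv ?_
    have w1 := (W_deriv hA' hB' hA N hBN (fun _ => 1) (fun j => uu A B j (y - t)) (y + t))
    have w2 := (W_deriv hA' hB' hA N hBN (fun _ => 1) (fun j => uu A B j (y + t)) (y - t))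
    have v1 : HasDerivAt (fun z => ∑ j ∈ range (N + 1), 1 * om A B j * uu A B j z * uu A B j (y - t))
        (∑ j ∈ range (N + 1), (om A B j * ((if j = 0 then B 0 * uu A B 1 (y + t) else
          A j * uu A B (j - 1) (y + t) + B j * uu A B (j + 1) (y + t)) * 1) * uu A B j (y - t))) (y + t) := by
      apply HasDerivAt.fun_sum
      intro j _
      have := ((hd j (y + t)).const_mul (1 * om A B j)).mul_const (uu A B j (y - t))
      refine this.congr_deriv ?_
      ring
    have v2 : HasDerivAt (fun z => ∑ j ∈ range (N + 1), 1 * om A B j * uu A B j z * uu A B j (y + t))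
        (∑ j ∈ range (N + 1), (om A B j * uu A B j (y + t) * ((if j = 0 then B 0 * uu A B 1 (y - t) else
          A j * uu A B (j - 1) (y - t) + B j * uu A B (j + 1) (y - t))))) (y - t) := by
      apply HasDerivAt.fun_sum
      intro j _
      have := ((hd j (y - t)).const_mul (1 * om A B j)).mul_const (uu A B j (y + t))
      refine this.congr_deriv ?_
      ring
    have e1 := v1.unique w1
    have e2 := v2.unique w2
    rw [sum_add_distrib, e1]
    have e3 : (∑ j ∈ range (N + 1), om A B j * uu A B j (y + t) * ((if j = 0 then B 0 * uu A B 1 (y - t) else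
          A j * uu A B (j - 1) (y - t) + B j * uu A B (j + 1) (y - t)) * (-1))) =
        - (∑ j ∈ range (N + 1), (om A B j * uu A B j (y + t) * ((if j = 0 then B 0 * uu A B 1 (y - t) else
          A j * uu A B (j - 1) (y - t) + B j * uu A B (j + 1) (y - t))))) := by
      rw [← sum_neg_distrib]; apply sum_congr rfl; intro j _; ring
    rw [e3, e2, ← sub_eq_add_neg, ← sum_sub_distrib]
    apply sum_eq_zero
    intro j _
    ring
  have hc := is_const_of_deriv_eq_zero
    (f := fun t => ∑ j ∈ range (N + 1), om A B j * uu A B j (y + t) * uu A B j (y - t))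
    (fun y => (hW y).differentiableAt) (fun y => (hW y).deriv) 0 y
  simp only [add_zero, sub_zero, sub_self] at hc
  have e4 : (∑ j ∈ range (N + 1), om A B j * uu A B j (y + y) * uu A B j 0) = uu A B 0 (2 * y) := by
    rw [sum_range_succ']
    simp [uu_zero, om, two_mul]
  rw [e4] at hc
  rw [← hc]
  apply sum_congr rfl
  intro j _
  ring

end

end Q287.MK
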