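import Pool.Agent.Q287.MK.MK3

open Finset Filter Topology

namespace Q287.MK

lemma om_low {A B : ℕ → ℝ} (hA : ∀ j, 0 < A (j + 1)) (m : ℕ) (hB : ∀ j, j < m → B j ≤ 0) :
    ∀ j, j ≤ m → 0 ≤ (-1) ^ j * om A B j := by
  intro j
  induction j with
  | zero => intro _; simp [om]
  | succ j ih =>
    intro hj
    have h1 := ih (by omega)
    have h2 := hB j (by omega)
    have h3 := hA j
    rw [om, pow_succ]
    have : (-1) ^ j * -1 * (om A B j * B j / A (j + 1)) = ((-1) ^ j * om A B j) * (-B j) / A (j + 1) := by ring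
    rw [this]
    apply div_nonneg (mul_nonneg h1 (by linarith)) h3.le

lemma om_high {A B : ℕ → ℝ} (hA : ∀ j, 0 < A (j + 1)) (m : ℕ) (hB : ∀ j, j < m → B j ≤ 0)
    (hB2 : ∀ j, m ≤ j → 0 ≤ B j) : ∀ j, m ≤ j → 0 ≤ (-1) ^ m * om A B j := by
  intro j hj
  induction j, hj using Nat.le_induction with
  | base => exact om_low hA m hB m le_rfl
  | succ j hj ih =>
    have h2 := hB2 j hj
    have h3 := hA j
    rw [om]
    have : (-1) ^ m * (om A B j * B j / A (j + 1)) = ((-1) ^ m * om A B j) * (B j) / A (j + 1) := by ring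
    rw [this]
    apply div_nonneg (mul_nonneg ih h2) h3.le

section
variable {A B : ℕ → ℝ} {C : ℝ} (hA' : ∀ j, |A (j + 1)| ≤ C) (hB' : ∀ j, |B j| ≤ C)
include hA' hB'

lemma odd_bound (hA : ∀ j, 0 < A (j + 1)) (N : ℕ) (hBN : B N = 0) (m : ℕ) (hm : m % 2 = 1)
    (hB : ∀ j, j < m → B j ≤ 0) (hB2 : ∀ j, m ≤ j → 0 ≤ B j) (x : ℝ) : uu A B 0 x ≤ 1 := by
  have h1 := E_double hA' hB' hA N hBN (x / 2)
  have h2 := E_one hA' hB' hA N hBN (x / 2)
  rw [show 2 * (x / 2) = x by ring] at h1
  rw [h1, ← h2]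
  apply sum_le_sum
  intro j _
  apply mul_le_mul_of_nonneg_right _ (sq_nonneg _)
  rcases Nat.even_or_odd j with he | ho
  · rw [he.neg_one_pow, one_mul]
  · have : om A B j ≤ 0 := by
      rcases le_total j m with h | h
      · have := om_low hA m hB j h
        rw [ho.neg_one_pow] at this; linarith
      · have := om_high hA m hB hB2 j h
        rw [(Nat.odd_iff.mpr hm).neg_one_pow] at this; linarith
    rw [ho.neg_one_pow]; linarith

/-- indicator of odd indices above `m` -/
noncomputable def so (m j : ℕ) : ℝ := if m < j ∧ j % 2 = 1 then 1 else 0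

lemma g_diff_ineq (hA : ∀ j, 0 < A (j + 1)) (N : ℕ) (hBN : B N = 0) (m : ℕ) (hm : m % 2 = 0) (hm1 : 1 ≤ m)
    (hB : ∀ j, j < m → B j ≤ 0) (hB2 : ∀ j, m ≤ j → 0 ≤ B j) (hAB : ∀ j, m ≤ j → A j + B j ≤ 1)
    (y l : ℝ) (hl : 0 < l) :
    ∑ j ∈ range N, om A B j * B j * ((so m j + so m (j + 1)) * (2 * uu A B j y * uu A B (j + 1) y)) ≤
      l * (∑ j ∈ range (N + 1), so m j * om A B j * uu A B j y ^ 2) +
      (1 / l) * (1 + ∑ j ∈ range (N + 1), so m j * om A B j * uu A B j y ^ 2) := by
  set t : ℕ → ℝ := fun j => if j % 2 = 1 then l else 1 / l with ht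
  set r : ℕ → ℝ := fun j => if m ≤ j then 1 else 0 with hr
  have hmev : Even m := Nat.even_iff.mpr hm
  have omp : ∀ j, m ≤ j → 0 ≤ om A B j := by
    intro j hj
    have := om_high hA m hB hB2 j hj
    rwa [hmev.neg_one_pow, one_mul] at this
  have tpos : ∀ j, 0 < t j := by intro j; simp only [ht]; split_ifs <;> positivity
  -- step 1: termwise
  have s1 : ∀ j, om A B j * B j * ((so m j + so m (j + 1)) * (2 * uu A B j y * uu A B (j + 1) y)) ≤
      om A B j * B j * r j * t j * uu A B j y ^ 2 + om A B j * B j * r j * t (j + 1) * uu A B (j + 1) y ^ 2 := by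
    intro j
    rcases lt_or_ge j m with h | h
    · have e1 : so m j = 0 := by unfold so; rw [if_neg (by omega)]
      have e2 : so m (j + 1) = 0 := by unfold so; rw [if_neg (by omega)]
      have e3 : r j = 0 := by simp only [hr]; rw [if_neg (by omega)]
      rw [e1, e2, e3]; simp
    · have e : so m j + so m (j + 1) = 1 := by
        unfold so
        rcases Nat.mod_two_eq_zero_or_one j with h2 | h2
        · rw [if_neg (by omega), if_pos (by omega)]; ring
        · rw [if_pos (by omega), if_neg (by omega)]; ring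
      have e3 : r j = 1 := by simp only [hr]; rw [if_pos h]
      have e4 : t j * t (j + 1) = 1 := by
        simp only [ht]
        rcases Nat.mod_two_eq_zero_or_one j with h2 | h2
        · rw [if_neg (by omega), if_pos (by omega)]; exact one_div_mul_cancel hl.ne'
        · rw [if_pos (by omega), if_neg (by omega)]; exact mul_one_div_cancel hl.ne'
      rw [e, e3]
      have hc : 0 ≤ om A B j * B j := mul_nonneg (omp j h) (hB2 j h)
      have key : 2 * uu A B j y * uu A B (j + 1) y ≤ t j * uu A B j y ^ 2 + t (j + 1) * uu A B (j + 1) y ^ 2 := by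
        have h3 := tpos j
        have h4 : 0 ≤ t (j + 1) * (t j * uu A B j y - uu A B (j + 1) y) ^ 2 :=
          mul_nonneg (tpos _).le (sq_nonneg _)
        have h5 : t (j + 1) * (t j * uu A B j y - uu A B (j + 1) y) ^ 2 =
          (t j * t (j + 1)) * (t j * uu A B j y ^ 2) - 2 * (t j * t (j + 1)) * uu A B j y * uu A B (j + 1) y
            + t (j + 1) * uu A B (j + 1) y ^ 2 := by ring
        rw [h5, e4] at h4
        linarith
      calc _ = om A B j * B j * (2 * uu A B j y * uu A B (j + 1) y) := by ring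
        _ ≤ om A B j * B j * (t j * uu A B j y ^ 2 + t (j + 1) * uu A B (j + 1) y ^ 2) :=
            mul_le_mul_of_nonneg_left key hc
        _ = _ := by ring
  -- step 2: sum
  have s2 : ∑ j ∈ range N, (om A B j * B j * r j * t j * uu A B j y ^ 2 +
      om A B j * B j * r j * t (j + 1) * uu A B (j + 1) y ^ 2) ≤
      ∑ j ∈ range (N + 1), om A B j * r j * t j * uu A B j y ^ 2 := by
    rw [sum_add_distrib]
    have a1 : ∑ j ∈ range N, om A B j * B j * r j * t j * uu A B j y ^ 2 =
        ∑ j ∈ range (N + 1), om A B j * B j * r j * t j * uu A B j y ^ 2 := by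
      rw [sum_range_succ, hBN]; ring
    have a2 : ∑ j ∈ range N, om A B j * B j * r j * t (j + 1) * uu A B (j + 1) y ^ 2 ≤
        ∑ j ∈ range (N + 1), (if j = 0 then 0 else om A B j * A j * r j * t j * uu A B j y ^ 2) := by
      rw [sum_range_succ']
      simp only [if_true, add_zero, if_neg (Nat.succ_ne_zero _)]
      apply sum_le_sum
      intro j _
      rw [om_succ hA j]
      rcases lt_or_ge j m with h | h
      · have e3 : r j = 0 := by simp only [hr]; rw [if_neg (by omega)]
        rw [e3]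
        rcases lt_or_ge (j + 1) m with h' | h'
        · have e3 : r (j + 1) = 0 := by simp only [hr]; rw [if_neg (by omega)]
          rw [e3]
        · have e3 : r (j + 1) = 1 := by simp only [hr]; rw [if_pos h']
          rw [e3, ← om_succ hA j]
          have := omp (j + 1) h'
          have := (hA j).le
          have := (tpos (j + 1)).le
          simp only [mul_zero, zero_mul, mul_one]
          positivity
      · have e3 : r j = 1 := by simp only [hr]; rw [if_pos h]
        have e4 : r (j + 1) = 1 := by simp only [hr]; rw [if_pos (by omega)]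
        rw [e3, e4]
    rw [a1]
    refine (add_le_add_right a2 _).trans ?_
    rw [← sum_add_distrib]
    apply sum_le_sum
    intro j _
    rcases lt_or_ge j m with h | h
    · have e3 : r j = 0 := by simp only [hr]; rw [if_neg (by omega)]
      rw [e3]; simp
    · have e3 : r j = 1 := by simp only [hr]; rw [if_pos h]
      rw [e3, if_neg (by omega)]
      have h1 := omp j h
      have h2 := (tpos j).le
      have h3 : 0 ≤ om A B j * t j * uu A B j y ^ 2 := by positivity
      have h4 := hAB j h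
      nlinarith
  -- step 3: identify
  have s3 : ∑ j ∈ range (N + 1), om A B j * r j * t j * uu A B j y ^ 2 =
      l * (∑ j ∈ range (N + 1), so m j * om A B j * uu A B j y ^ 2) +
      (1 / l) * (∑ j ∈ range (N + 1), (if m ≤ j ∧ j % 2 = 0 then 1 else 0) * om A B j * uu A B j y ^ 2) := by
    rw [mul_sum, mul_sum, ← sum_add_distrib]
    apply sum_congr rfl
    intro j _
    simp only [hr, ht, so]
    rcases Nat.mod_two_eq_zero_or_one j with h2 | h2
    · rw [if_neg (by omega : ¬ j % 2 = 1), if_neg (by omega : ¬ (m < j ∧ j % 2 = 1))]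
      by_cases h : m ≤ j
      · rw [if_pos h, if_pos ⟨h, h2⟩]; ring
      · rw [if_neg h, if_neg (by tauto)]; ring
    · rw [if_pos h2, if_neg (by omega : ¬ (m ≤ j ∧ j % 2 = 0))]
      by_cases h : m ≤ j
      · rw [if_pos h, if_pos (by omega)]; ring
      · rw [if_neg h, if_neg (by omega)]; ring
  have s4 : (∑ j ∈ range (N + 1), (if m ≤ j ∧ j % 2 = 0 then 1 else 0) * om A B j * uu A B j y ^ 2) ≤
      1 + ∑ j ∈ range (N + 1), so m j * om A B j * uu A B j y ^ 2 := by
    have hE := E_one hA' hB' hA N hBN y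
    have hE2 : 1 + ∑ j ∈ range (N + 1), so m j * om A B j * uu A B j y ^ 2 =
      (∑ j ∈ range (N + 1), (-1) ^ j * om A B j * uu A B j y ^ 2) +
      ∑ j ∈ range (N + 1), so m j * om A B j * uu A B j y ^ 2 := by rw [hE]
    rw [hE2, ← sum_add_distrib]
    apply sum_le_sum
    intro j _
    have hs := sq_nonneg (uu A B j y)
    unfold so
    rcases Nat.mod_two_eq_zero_or_one j with h2 | h2
    · rw [(Nat.even_iff.mpr h2).neg_one_pow, if_neg (by omega : ¬ (m < j ∧ j % 2 = 1))]
      by_cases h : m ≤ j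
      · rw [if_pos ⟨h, h2⟩]; linarith
      · rw [if_neg (by tauto)]
        have := om_low hA m hB j (by omega)
        rw [(Nat.even_iff.mpr h2).neg_one_pow] at this
        nlinarith
    · rw [(Nat.odd_iff.mpr h2).neg_one_pow, if_neg (by omega : ¬ (m ≤ j ∧ j % 2 = 0))]
      by_cases h : m < j
      · rw [if_pos ⟨h, h2⟩]; linarith
      · rw [if_neg (by tauto)]
        have := om_low hA m hB j (by omega)
        rw [(Nat.odd_iff.mpr h2).neg_one_pow] at this
        nlinarith
  calc _ ≤ _ := sum_le_sum (fun j _ => s1 j)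
    _ ≤ _ := s2
    _ = _ := s3
    _ ≤ _ := by
      have : 0 < 1 / l := by positivity
      have := mul_le_mul_of_nonneg_left s4 this.le
      linarith

lemma g_bound (hA : ∀ j, 0 < A (j + 1)) (N : ℕ) (hBN : B N = 0) (m : ℕ) (hm : m % 2 = 0) (hm1 : 1 ≤ m)
    (hB : ∀ j, j < m → B j ≤ 0) (hB2 : ∀ j, m ≤ j → 0 ≤ B j) (hAB : ∀ j, m ≤ j → A j + B j ≤ 1)
    {y : ℝ} (hy : 0 ≤ y) :
    ∑ j ∈ range (N + 1), so m j * om A B j * uu A B j y ^ 2 ≤ Real.sinh y ^ 2 := by
  set g : ℝ → ℝ := fun y => ∑ j ∈ range (N + 1), so m j * om A B j * uu A B j y ^ 2 with hg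
  set g' : ℝ → ℝ := fun y => ∑ j ∈ range N, om A B j * B j * ((so m j + so m (j + 1)) *
    (2 * uu A B j y * uu A B (j + 1) y)) with hg'
  have hd : ∀ y, HasDerivAt g (g' y) y := fun y => E_deriv hA' hB' hA N hBN (so m) y
  have hg0 : g 0 = 0 := by
    simp only [hg]
    apply sum_eq_zero
    intro j _
    rw [uu_zero]
    rcases j with _ | j
    · simp [so]
    · simp
  have main : ∀ ε : ℝ, 0 < ε → g y ≤ Real.sinh ((1 + ε) * y + ε) ^ 2 := by
    intro ε hε
    have hBd : ∀ x, HasDerivAt (fun x => Real.sinh ((1 + ε) * x + ε) ^ 2)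
        ((1 + ε) * (2 * Real.sinh ((1 + ε) * x + ε) * Real.cosh ((1 + ε) * x + ε))) x := by
      intro x
      have h1 : HasDerivAt (fun x => (1 + ε) * x + ε) (1 + ε) x := by
        simpa using ((hasDerivAt_id x).const_mul (1 + ε)).add_const ε
      have h2 := (Real.hasDerivAt_sinh ((1 + ε) * x + ε)).comp x h1
      have h3 : HasDerivAt (fun x => Real.sinh ((1 + ε) * x + ε) ^ 2) _ x := h2.pow 2
      refine h3.congr_deriv ?_
      simp only [Function.comp]
      push_cast
      ring
    refine image_le_of_deriv_right_lt_deriv_boundary (f := g) (f' := g') (a := 0) (b := y)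
      (B := fun x => Real.sinh ((1 + ε) * x + ε) ^ 2)
      (B' := fun x => (1 + ε) * (2 * Real.sinh ((1 + ε) * x + ε) * Real.cosh ((1 + ε) * x + ε)))
      (continuous_iff_continuousAt.mpr (fun x => (hd x).continuousAt)).continuousOn
      (fun x _ => (hd x).hasDerivWithinAt) ?_ hBd ?_ (Set.right_mem_Icc.mpr hy)
    · rw [hg0]; positivity
    · intro x hx hgx
      have hz : 0 < (1 + ε) * x + ε := by
        have := hx.1; positivity
      have hs : 0 < Real.sinh ((1 + ε) * x + ε) := Real.sinh_pos_iff.mpr hz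
      have hc : 0 < Real.cosh ((1 + ε) * x + ε) := Real.cosh_pos _
      have hcs := Real.cosh_sq ((1 + ε) * x + ε)
      have h1 := g_diff_ineq hA' hB' hA N hBN m hm hm1 hB hB2 hAB x
        (Real.cosh ((1 + ε) * x + ε) / Real.sinh ((1 + ε) * x + ε)) (by positivity)
      have h2 : g' x ≤ Real.cosh ((1 + ε) * x + ε) / Real.sinh ((1 + ε) * x + ε) * g x +
        1 / (Real.cosh ((1 + ε) * x + ε) / Real.sinh ((1 + ε) * x + ε)) * (1 + g x) := h1
      rw [hgx] at h2
      have h3 : Real.cosh ((1 + ε) * x + ε) / Real.sinh ((1 + ε) * x + ε) * Real.sinh ((1 + ε) * x + ε) ^ 2 +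
        1 / (Real.cosh ((1 + ε) * x + ε) / Real.sinh ((1 + ε) * x + ε)) * (1 + Real.sinh ((1 + ε) * x + ε) ^ 2)
          = 2 * Real.sinh ((1 + ε) * x + ε) * Real.cosh ((1 + ε) * x + ε) := by
        rw [show 1 + Real.sinh ((1 + ε) * x + ε) ^ 2 = Real.cosh ((1 + ε) * x + ε) ^ 2 by rw [hcs]; ring]
        field_simp
        ring
      rw [h3] at h2
      have h4 : 0 < 2 * Real.sinh ((1 + ε) * x + ε) * Real.cosh ((1 + ε) * x + ε) := by positivity
      nlinarith
  have hlim : Tendsto (fun ε : ℝ => Real.sinh ((1 + ε) * y + ε) ^ 2) (𝓝[>] 0) (𝓝 (Real.sinh y ^ 2)) := by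
    have hc : Continuous (fun ε : ℝ => Real.sinh ((1 + ε) * y + ε) ^ 2) := by fun_prop
    have := hc.tendsto 0
    simp only [add_zero, one_mul] at this
    exact this.mono_left nhdsWithin_le_nhds
  exact ge_of_tendsto hlim (by filter_upwards [self_mem_nhdsWithin] with ε hε using main ε hε)

lemma even_bound (hA : ∀ j, 0 < A (j + 1)) (N : ℕ) (hBN : B N = 0) (m : ℕ) (hm : m % 2 = 0) (hm1 : 1 ≤ m)
    (hB : ∀ j, j < m → B j ≤ 0) (hB2 : ∀ j, m ≤ j → 0 ≤ B j) (hAB : ∀ j, m ≤ j → A j + B j ≤ 1)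
    {x : ℝ} (hx : 0 ≤ x) : uu A B 0 x ≤ Real.cosh x := by
  have h1 := E_double hA' hB' hA N hBN (x / 2)
  have h2 := E_one hA' hB' hA N hBN (x / 2)
  have h3 := g_bound hA' hB' hA N hBN m hm hm1 hB hB2 hAB (show 0 ≤ x / 2 by linarith)
  rw [show 2 * (x / 2) = x by ring] at h1
  have h4 : Real.cosh x = 1 + 2 * Real.sinh (x / 2) ^ 2 := by
    have := Real.cosh_two_mul (x / 2)
    rw [show 2 * (x / 2) = x by ring, Real.cosh_sq] at this
    linarith
  have h5 : uu A B 0 x ≤ 1 + 2 * ∑ j ∈ range (N + 1), so m j * om A B j * uu A B j (x / 2) ^ 2 := by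
    rw [h1]
    have hE2 : 1 + 2 * ∑ j ∈ range (N + 1), so m j * om A B j * uu A B j (x / 2) ^ 2 =
      (∑ j ∈ range (N + 1), (-1) ^ j * om A B j * uu A B j (x / 2) ^ 2) +
      2 * ∑ j ∈ range (N + 1), so m j * om A B j * uu A B j (x / 2) ^ 2 := by rw [h2]
    rw [hE2, mul_sum, ← sum_add_distrib]
    apply sum_le_sum
    intro j _
    have hs := sq_nonneg (uu A B j (x / 2))
    unfold so
    rcases Nat.mod_two_eq_zero_or_one j with h2 | h2
    · rw [(Nat.even_iff.mpr h2).neg_one_pow, if_neg (by omega : ¬ (m < j ∧ j % 2 = 1))]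
      linarith
    · rw [(Nat.odd_iff.mpr h2).neg_one_pow]
      by_cases h : m < j
      · rw [if_pos ⟨h, h2⟩]; linarith
      · rw [if_neg (by tauto)]
        have := om_low hA m hB j (by omega)
        rw [(Nat.odd_iff.mpr h2).neg_one_pow] at this
        nlinarith
  rw [h4]
  linarith

end

/-- truncated couplings -/
noncomputable def tr (B : ℕ → ℝ) (N j : ℕ) : ℝ := if j < N then B j else 0

lemma mom_tr (A B : ℕ → ℝ) (N : ℕ) : ∀ n, n ≤ N → ∀ j, mom A (tr B N) n j = mom A B n j := by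
  intro n
  induction n with
  | zero => intro _ j; rw [mom_zero, mom_zero]
  | succ n ih =>
    intro hn j
    rcases j with _ | j
    · rw [mom_succ_zero, mom_succ_zero, ih (by omega), tr, if_pos (by omega)]
    · rw [mom_succ_succ, mom_succ_succ, ih (by omega), ih (by omega)]
      by_cases h : j + 1 < N
      · rw [tr, if_pos h]
      · rw [mom_gt A B n (j + 2) (by omega)]; ring

lemma uu_lim {A B : ℕ → ℝ} {C : ℝ} (hA' : ∀ j, |A (j + 1)| ≤ C) (hB' : ∀ j, |B j| ≤ C) (x : ℝ) :
    Tendsto (fun N => uu A (tr B N) 0 x) atTop (𝓝 (uu A B 0 x)) := by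
  have hC : 0 ≤ C := (abs_nonneg _).trans (hB' 0)
  have htr : ∀ N j, |tr B N j| ≤ C := by
    intro N j; unfold tr; split_ifs
    · exact hB' j
    · simpa using hC
  unfold uu ef
  apply tendsto_tsum_of_dominated_convergence (bound := fun n : ℕ => (2 * C * |x|) ^ n / n.factorial)
  · exact Real.summable_pow_div_factorial _
  · intro n
    apply tendsto_const_nhds.congr'
    filter_upwards [eventually_ge_atTop n] with N hN
    rw [mom_tr A B N n hN]
  · apply Eventually.of_forall
    intro N n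
    rw [norm_div, norm_mul, norm_pow, Real.norm_eq_abs, Real.norm_eq_abs, Real.norm_eq_abs, Nat.abs_cast]
    rw [mul_pow]
    have := mom_bound A (tr B N) C hA' (htr N) n 0
    gcongr

theorem upper_odd {A B : ℕ → ℝ} {C : ℝ} (hA' : ∀ j, |A (j + 1)| ≤ C) (hB' : ∀ j, |B j| ≤ C)
    (hA : ∀ j, 0 < A (j + 1)) (m : ℕ) (hm : m % 2 = 1)
    (hB : ∀ j, j < m → B j ≤ 0) (hB2 : ∀ j, m ≤ j → 0 ≤ B j) (x : ℝ) : uu A B 0 x ≤ 1 := by
  have hC : 0 ≤ C := (abs_nonneg _).trans (hB' 0)
  have htr : ∀ N j, |tr B N j| ≤ C := by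
    intro N j; unfold tr; split_ifs
    · exact hB' j
    · simpa using hC
  refine le_of_tendsto (uu_lim hA' hB' x) (Eventually.of_forall (fun N => ?_))
  apply odd_bound hA' (htr N) hA N (by simp [tr]) m hm
  · intro j hj; unfold tr; split_ifs
    · exact hB j hj
    · exact le_rfl
  · intro j hj; unfold tr; split_ifs
    · exact hB2 j hj
    · exact le_rfl

theorem upper_even {A B : ℕ → ℝ} {C : ℝ} (hA' : ∀ j, |A (j + 1)| ≤ C) (hB' : ∀ j, |B j| ≤ C)
    (hA : ∀ j, 0 < A (j + 1)) (m : ℕ) (hm : m % 2 = 0) (hm1 : 1 ≤ m)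
    (hB : ∀ j, j < m → B j ≤ 0) (hB2 : ∀ j, m ≤ j → 0 ≤ B j) (hAB : ∀ j, m ≤ j → A j + B j ≤ 1)
    {x : ℝ} (hx : 0 ≤ x) : uu A B 0 x ≤ Real.cosh x := by
  have hC : 0 ≤ C := (abs_nonneg _).trans (hB' 0)
  have htr : ∀ N j, |tr B N j| ≤ C := by
    intro N j; unfold tr; split_ifs
    · exact hB' j
    · simpa using hC
  refine le_of_tendsto (uu_lim hA' hB' x) (Eventually.of_forall (fun N => ?_))
  refine even_bound hA' (htr N) hA N (by simp [tr]) m hm hm1 ?_ ?_ ?_ hx
  · intro j hj; unfold tr; split_ifs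
    · exact hB j hj
    · exact le_rfl
  · intro j hj; unfold tr; split_ifs
    · exact hB2 j hj
    · exact le_rfl
  · intro j hj; unfold tr; split_ifs
    · exact hAB j hj
    · have := hAB j hj
      have := hB2 j hj
      linarith

end Q287.MK
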