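import Pool.Agent.Q287.MK.MK4

open Finset Filter Topology

namespace Q287.MK

lemma ef_one (x : ℝ) : ef (fun _ => 1) x = Real.exp x := by
  unfold ef
  rw [Real.exp_eq_exp_ℝ, NormedSpace.exp_eq_tsum_div]
  simp

lemma ef_neg_one (x : ℝ) : ef (fun n => (-1) ^ n) x = Real.exp (-x) := by
  rw [← ef_one]
  unfold ef
  apply tsum_congr
  intro n
  rw [neg_pow x]
  ring

lemma ef_even (x : ℝ) : ef (fun n => if n % 2 = 0 then (1 : ℝ) else 0) x = Real.cosh x := by
  have h := ef_lin (a := fun _ => (1 : ℝ)) (b := fun n => (-1 : ℝ) ^ n) (M := 1) (C := 1) (M' := 1) (C' := 1)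
    (by intro n; simp) (by intro n; simp) (1 / 2) (1 / 2) x
  rw [ef_one, ef_neg_one] at h
  rw [Real.cosh_eq]
  have e : (fun n : ℕ => 1 / 2 * (1 : ℝ) + 1 / 2 * (-1) ^ n) = fun n => if n % 2 = 0 then (1 : ℝ) else 0 := by
    funext n
    rcases Nat.even_or_odd n with h | h
    · rw [h.neg_one_pow, if_pos (Nat.even_iff.mp h)]; norm_num
    · rw [h.neg_one_pow, if_neg (by rw [Nat.odd_iff.mp h]; norm_num)]; norm_num
  rw [e] at h
  rw [h]; ring

lemma frac_bound (c d : ℝ) (hd : 0 < d) (j : ℕ) : |(c + j) / (2 * (d + j))| ≤ |c| / d + 1 := by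
  have hj : (0 : ℝ) ≤ j := Nat.cast_nonneg j
  rw [abs_div, abs_of_pos (show 0 < 2 * (d + j) by positivity), div_le_iff₀ (by positivity)]
  have h1 : |c + j| ≤ |c| + j := by
    have := abs_add_le c j
    rwa [abs_of_nonneg hj] at this
  have h2 : 0 ≤ |c| / d := by positivity
  have h3 : |c| / d * d = |c| := by field_simp
  nlinarith [mul_nonneg h2 hj, abs_nonneg c]

section
variable {κ μ δ : ℝ} (hμ : -1 < μ)
include hμ

lemma AY_bound (j : ℕ) : |AY κ μ (j + 1)| ≤ |κ + 1| / (μ + 1) + 1 := by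
  have := frac_bound (κ + 1) (μ + 1) (by linarith) j
  unfold AY
  push_cast
  rw [show κ + ((j : ℝ) + 1) = κ + 1 + j by ring, show μ + ((j : ℝ) + 1) = μ + 1 + j by ring]
  exact this

lemma BY_bound (j : ℕ) : |BY δ μ j| ≤ |(-δ)| / (μ + 1) + 1 := by
  have hm : 0 < μ + 1 := by linarith
  rcases j with _ | j
  · simp [BY]; positivity
  · have := frac_bound (-δ) (μ + 1) (by linarith) j
    unfold BY
    rw [if_neg (Nat.succ_ne_zero j)]
    push_cast
    rw [show ((j : ℝ) + 1 - 1 - δ) = -δ + j by ring, show μ + ((j : ℝ) + 1) = μ + 1 + j by ring]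
    exact this

lemma AQ_bound (j : ℕ) : |AQ κ μ (j + 1)| ≤ (|κ - 1| / (μ + 1) + 1) + 1 / (μ + 1) := by
  have hm : 0 < μ + 1 := by linarith
  have h0 : 0 < 1 / (μ + 1) := by positivity
  rcases j with _ | j
  · unfold AQ
    rw [if_pos (by norm_num), abs_of_pos (by positivity)]
    have : 1 / (2 * (μ + 1)) ≤ 1 / (μ + 1) := by
      apply one_div_le_one_div_of_le hm; linarith
    have : 0 ≤ |κ - 1| / (μ + 1) := by positivity
    linarith
  · have := frac_bound (κ - 1) (μ + 1) (by linarith) (j + 1)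
    unfold AQ
    rw [if_neg (by omega)]
    push_cast at this ⊢
    rw [show κ + ((j : ℝ) + 1 + 1) - 2 = κ - 1 + (j + 1) by ring, show μ + ((j : ℝ) + 1 + 1) = μ + 1 + (j + 1) by ring]
    linarith

lemma BQ_bound (j : ℕ) : |BQ δ μ j| ≤ (|2 - δ| / (μ + 1) + 1) + |1 - δ| := by
  have hm : 0 < μ + 1 := by linarith
  rcases j with _ | j
  · have : 0 ≤ |2 - δ| / (μ + 1) := by positivity
    simp only [BQ, if_true]
    linarith
  · have := frac_bound (2 - δ) (μ + 1) (by linarith) j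
    unfold BQ
    rw [if_neg (Nat.succ_ne_zero j)]
    push_cast at this ⊢
    rw [show ((j : ℝ) + 1 + 1 - δ) = 2 - δ + j by ring, show μ + ((j : ℝ) + 1) = μ + 1 + j by ring]
    linarith [abs_nonneg (1 - δ)]

omit hμ in
lemma kk_bound' {C : ℝ} (h1 : ∀ j, |AY κ μ (j + 1)| ≤ C) (h2 : ∀ j, |BY δ μ j| ≤ C) (n : ℕ) :
    |kk κ μ δ n| ≤ |κ| * (2 * C) ^ n := by
  unfold kk
  rw [abs_mul]
  exact mul_le_mul_of_nonneg_left (mom_bound _ _ C h1 h2 n 0) (abs_nonneg _)

lemma kk_bound : ∃ M C : ℝ, 0 ≤ M ∧ 0 ≤ C ∧ ∀ n, |kk κ μ δ n| ≤ M * C ^ n := by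
  have hm : 0 < μ + 1 := by linarith
  refine ⟨|κ|, 2 * ((|κ + 1| / (μ + 1) + 1) + (|(-δ)| / (μ + 1) + 1)), abs_nonneg _, by positivity, ?_⟩
  apply kk_bound'
  · intro j
    have := AY_bound (κ := κ) hμ j
    have : 0 ≤ |(-δ)| / (μ + 1) := by positivity
    linarith
  · intro j
    have := BY_bound (δ := δ) hμ j
    have : 0 ≤ |κ + 1| / (μ + 1) := by positivity
    linarith

/-- `k(x) > 0` for all `x ≥ 0` -/
theorem k_pos (hκ : κ = 2 * μ + 1 + δ) (hκ0 : 0 < κ) {x : ℝ} (hx : 0 ≤ x) : 0 < ef (kk κ μ δ) x := by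
  obtain ⟨M, C, hM, hC, hb⟩ := kk_bound (κ := κ) (δ := δ) hμ
  rcases le_or_gt δ 1 with hδ | hδ
  · have hs := (ef_summ hb x).of_norm
    unfold ef
    refine hs.tsum_pos (fun n => ?_) 0 ?_
    · have := kk_nonneg hμ hκ hκ0 hδ n
      positivity
    · rw [kk_zero hμ]; simpa using hκ0
  · have hm : 0 < μ + 1 := by linarith
    set CC : ℝ := ((|κ - 1| / (μ + 1) + 1) + 1 / (μ + 1)) + ((|2 - δ| / (μ + 1) + 1) + |1 - δ|) with hCC
    have hA' : ∀ j, |AQ κ μ (j + 1)| ≤ CC := by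
      intro j
      have := AQ_bound (κ := κ) hμ j
      have : 0 ≤ |2 - δ| / (μ + 1) := by positivity
      have := abs_nonneg (1 - δ)
      rw [hCC]; linarith
    have hB' : ∀ j, |BQ δ μ j| ≤ CC := by
      intro j
      have := BQ_bound (δ := δ) hμ j
      have : 0 ≤ |κ - 1| / (μ + 1) := by positivity
      have : 0 ≤ 1 / (μ + 1) := by positivity
      rw [hCC]; linarith
    have hA : ∀ j, 0 < AQ κ μ (j + 1) := by
      intro j
      unfold AQ
      split_ifs with h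
      · positivity
      · have hj : (1 : ℝ) ≤ j := by
          have : 1 ≤ j := by omega
          exact_mod_cast this
        push_cast
        apply div_pos <;> linarith
    -- m = ⌈δ⌉ - 1
    obtain ⟨m, hm1, hmδ, hδm⟩ : ∃ m : ℕ, 1 ≤ m ∧ (m : ℝ) < δ ∧ δ ≤ m + 1 := by
      refine ⟨⌈δ⌉₊ - 1, ?_, ?_, ?_⟩
      · have : 1 < ⌈δ⌉₊ := by rw [Nat.lt_ceil]; simpa using hδ
        omega
      · have h1 : 1 < ⌈δ⌉₊ := by rw [Nat.lt_ceil]; simpa using hδ
        rw [← Nat.lt_ceil]; omega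
      · have h1 : 1 < ⌈δ⌉₊ := by rw [Nat.lt_ceil]; simpa using hδ
        have h2 := Nat.le_ceil δ
        have h3 : ((⌈δ⌉₊ - 1 : ℕ) : ℝ) + 1 = (⌈δ⌉₊ : ℝ) := by
          rw [Nat.cast_sub (by omega)]; push_cast; ring
        rw [h3]; exact h2
    have hB : ∀ j, j < m → BQ δ μ j ≤ 0 := by
      intro j hj
      unfold BQ
      split_ifs with h
      · linarith
      · have h1 : (j : ℝ) + 1 ≤ m := by exact_mod_cast hj
        have hj1 : (0 : ℝ) < j := by exact_mod_cast Nat.pos_of_ne_zero h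
        have hj2 : (1 : ℝ) ≤ j := by exact_mod_cast Nat.one_le_iff_ne_zero.mpr h
        apply div_nonpos_of_nonpos_of_nonneg <;> linarith
    have hB2 : ∀ j, m ≤ j → 0 ≤ BQ δ μ j := by
      intro j hj
      unfold BQ
      rw [if_neg (by omega)]
      have h1 : (m : ℝ) ≤ j := by exact_mod_cast hj
      have hj2 : (1 : ℝ) ≤ j := by exact_mod_cast (by omega : 1 ≤ j)
      apply div_nonneg <;> linarith
    -- formula
    have hφb : ∀ n, |mom (AQ κ μ) (BQ δ μ) n 0| ≤ 1 * (2 * CC) ^ n := fun n => mb hA' hB' 0 n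
    have hev : ∀ n : ℕ, |(if n % 2 = 0 then (1 : ℝ) else 0)| ≤ 1 * 1 ^ n := by
      intro n; split_ifs <;> simp
    have hform : ef (kk κ μ δ) x = (κ + δ) * Real.cosh x + (-δ) * uu (AQ κ μ) (BQ δ μ) 0 x := by
      have h := ef_lin hev hφb (κ + δ) (-δ) x
      rw [ef_even] at h
      unfold uu
      rw [← h]
      congr 1
      funext n
      rw [kk_Q hμ hκ n]; ring
    rw [hform]
    rcases Nat.mod_two_eq_zero_or_one m with he | ho
    · have h1 := upper_even hA' hB' hA m he hm1 hB hB2 (by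
        intro j hj
        unfold AQ BQ
        have hj2 : 2 ≤ j := by omega
        rw [if_neg (by omega), if_neg (by omega)]
        have : (2 : ℝ) ≤ j := by exact_mod_cast hj2
        have hne : μ + (j : ℝ) ≠ 0 := by
          have : 0 < μ + (j : ℝ) := by linarith
          exact this.ne'
        apply le_of_eq
        rw [hκ]
        field_simp
        ring) hx
      have h2 := Real.cosh_pos x
      nlinarith
    · have h1 := upper_odd hA' hB' hA m ho hB hB2 x
      have h2 := Real.one_le_cosh x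
      nlinarith

end

end Q287.MK
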