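import Pool.Agent.Q287.MK.MK5

open Finset Filter Topology MeasureTheory

namespace Q287.MK

lemma tsum_prod_antidiag {f : ℕ × ℕ → ℝ} (hf : Summable f) :
    ∑' p, f p = ∑' n, ∑ p ∈ antidiagonal n, f p := by
  rw [← (Finset.HasAntidiagonal.sigmaAntidiagonalEquivProd (A := ℕ)).tsum_eq f]
  have h2 : Summable (fun x => f (Finset.HasAntidiagonal.sigmaAntidiagonalEquivProd (A := ℕ) x)) :=
    (Finset.HasAntidiagonal.sigmaAntidiagonalEquivProd (A := ℕ)).summable_iff.mpr hf
  rw [h2.tsum_sigma' (fun n => (hasSum_fintype _).summable)]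
  apply tsum_congr
  intro n
  rw [tsum_fintype]
  exact Finset.sum_coe_sort (antidiagonal n) f

/-- scaled beta integral -/
lemma beta_int {a b x : ℝ} (ha : 0 < a) (hb : 0 < b) (hx : 0 < x) :
    ∫ y in (0 : ℝ)..x, y ^ (a - 1) * (x - y) ^ (b - 1) =
      x ^ (a + b - 1) * (Real.Gamma a * Real.Gamma b / Real.Gamma (a + b)) := by
  have h1 := Complex.betaIntegral_scaled (a : ℂ) (b : ℂ) hx
  have h2 : (∫ y in (0 : ℝ)..x, ((y : ℂ)) ^ ((a : ℂ) - 1) * ((x : ℂ) - y) ^ ((b : ℂ) - 1)) =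
      ((∫ y in (0 : ℝ)..x, y ^ (a - 1) * (x - y) ^ (b - 1) : ℝ) : ℂ) := by
    rw [← intervalIntegral.integral_ofReal]
    apply intervalIntegral.integral_congr_ae
    rw [Set.uIoc_of_le hx.le]
    have : ∀ᵐ y ∂(volume : Measure ℝ), y ≠ x := by
      simp [ae_iff, measure_singleton]
    filter_upwards [this] with y hyx hy
    have hy0 : 0 ≤ y := hy.1.le
    have hy1 : 0 ≤ x - y := by linarith [hy.2]
    rw [Complex.ofReal_mul, Complex.ofReal_cpow hy0, Complex.ofReal_cpow hy1]
    push_cast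
    rfl
  rw [h2] at h1
  have h3 : (a : ℂ).betaIntegral b = ((Real.Gamma a * Real.Gamma b / Real.Gamma (a + b) : ℝ) : ℂ) := by
    rw [Complex.betaIntegral_eq_Gamma_mul_div _ _ (by simpa) (by simpa), ← Complex.ofReal_add,
      Complex.Gamma_ofReal, Complex.Gamma_ofReal, Complex.Gamma_ofReal]
    push_cast; rfl
  rw [h3, show ((a : ℂ) + b - 1) = ((a + b - 1 : ℝ) : ℂ) by push_cast; ring, ← Complex.ofReal_cpow hx.le,
    ← Complex.ofReal_mul] at h1
  exact_mod_cast h1

lemma beta_integrable {a b x : ℝ} (ha : 0 < a) (hb : 0 < b) (hx : 0 < x) :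
    IntervalIntegrable (fun y => y ^ (a - 1) * (x - y) ^ (b - 1)) volume 0 x := by
  by_contra h
  have h1 := beta_int ha hb hx
  rw [intervalIntegral.integral_undef h] at h1
  have h2 : 0 < x ^ (a + b - 1) * (Real.Gamma a * Real.Gamma b / Real.Gamma (a + b)) := by
    have := Real.Gamma_pos_of_pos ha
    have := Real.Gamma_pos_of_pos hb
    have := Real.Gamma_pos_of_pos (add_pos ha hb)
    have := Real.rpow_pos_of_pos hx (a + b - 1)
    positivity
  linarith

lemma Gam_ge {α : ℝ} (hα : 0 < α) (n : ℕ) :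
    Real.Gamma α * n.factorial / (1 / α + 1) ^ n ≤ Real.Gamma (α + n) := by
  have hG := Real.Gamma_pos_of_pos hα
  have hD : 0 < 1 / α + 1 := by positivity
  induction n with
  | zero => simp
  | succ n ih =>
    have hn : (0 : ℝ) ≤ n := Nat.cast_nonneg n
    have h1 : α + ((n + 1 : ℕ) : ℝ) = (α + n) + 1 := by push_cast; ring
    rw [h1, Real.Gamma_add_one (by positivity)]
    have h2 : (n + 1 : ℝ) / (1 / α + 1) ≤ α + n := by
      rw [div_le_iff₀ hD]
      have : (α + n) * (1 / α + 1) = 1 + α + n / α + n := by field_simp; ring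
      rw [this]
      have : 0 ≤ n / α := by positivity
      linarith
    calc Real.Gamma α * (n + 1).factorial / (1 / α + 1) ^ (n + 1)
        = ((n + 1 : ℝ) / (1 / α + 1)) * (Real.Gamma α * n.factorial / (1 / α + 1) ^ n) := by
          rw [Nat.factorial_succ, pow_succ]; push_cast; field_simp
      _ ≤ (α + n) * Real.Gamma (α + n) := by
          apply mul_le_mul h2 ih (by positivity) (by positivity)

lemma inv_Gam_le {α : ℝ} (hα : 0 < α) (n : ℕ) :
    1 / Real.Gamma (α + n) ≤ (1 / Real.Gamma α) * ((1 / α + 1) ^ n / n.factorial) := by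
  have hG := Real.Gamma_pos_of_pos hα
  have hD : 0 < 1 / α + 1 := by positivity
  have hf : (0 : ℝ) < n.factorial := by exact_mod_cast n.factorial_pos
  have h := Gam_ge hα n
  have h2 : 0 < Real.Gamma α * n.factorial / (1 / α + 1) ^ n := by positivity
  calc 1 / Real.Gamma (α + n) ≤ 1 / (Real.Gamma α * n.factorial / (1 / α + 1) ^ n) :=
        one_div_le_one_div_of_le h2 h
    _ = _ := by field_simp

/-- `Σ p_n x^(α+n-1)/Γ(α+n)` -/
noncomputable def Sf (α : ℝ) (p : ℕ → ℝ) (x : ℝ) : ℝ :=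
  ∑' n : ℕ, p n * (x ^ (α + n - 1) / Real.Gamma (α + n))

lemma Sf_summ {α : ℝ} (hα : 0 < α) {p : ℕ → ℝ} {M C : ℝ} (hC : 0 ≤ C) (hp : ∀ n, |p n| ≤ M * C ^ n) {x : ℝ}
    (hx : 0 < x) : Summable (fun n : ℕ => ‖p n * (x ^ (α + n - 1) / Real.Gamma (α + n))‖) := by
  have hM : 0 ≤ M := by have := (abs_nonneg _).trans (hp 0); simpa using this
  have hs : Summable (fun n : ℕ => (M * x ^ (α - 1) * (1 / Real.Gamma α)) *
      ((C * x * (1 / α + 1)) ^ n / n.factorial)) :=
    (Real.summable_pow_div_factorial _).mul_left _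
  refine Summable.of_nonneg_of_le (fun n => norm_nonneg _) (fun n => ?_) hs
  have hn : (0 : ℝ) ≤ n := Nat.cast_nonneg n
  have hG : 0 < Real.Gamma (α + n) := Real.Gamma_pos_of_pos (by positivity)
  have hx1 : 0 < x ^ (α + n - 1) := Real.rpow_pos_of_pos hx _
  have hx2 : x ^ (α + n - 1) = x ^ (α - 1) * x ^ n := by
    rw [← Real.rpow_natCast x n, ← Real.rpow_add hx]; congr 1; ring
  rw [norm_mul, Real.norm_eq_abs, Real.norm_eq_abs, abs_of_pos (show 0 < x ^ (α + n - 1) / Real.Gamma (α + n) by positivity)]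
  have h1 := inv_Gam_le hα n
  have hx3 : 0 < x ^ (α - 1) := Real.rpow_pos_of_pos hx _
  calc |p n| * (x ^ (α + n - 1) / Real.Gamma (α + n)) = |p n| * (x ^ (α - 1) * x ^ n * (1 / Real.Gamma (α + n))) := by
        rw [hx2]; ring
    _ ≤ (M * C ^ n) * (x ^ (α - 1) * x ^ n * ((1 / Real.Gamma α) * ((1 / α + 1) ^ n / n.factorial))) := by
        gcongr
        exact hp n
    _ = _ := by rw [mul_pow, mul_pow]; ring

/-- entire part -/
noncomputable def hh (α : ℝ) (p : ℕ → ℝ) (x : ℝ) : ℝ := ef (fun n => p n * (n.factorial / Real.Gamma (α + n))) x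

lemma hh_bound {α : ℝ} (hα : 0 < α) {p : ℕ → ℝ} {M C : ℝ} (hC : 0 ≤ C) (hp : ∀ n, |p n| ≤ M * C ^ n) (n : ℕ) :
    |p n * (n.factorial / Real.Gamma (α + n))| ≤ (M * (1 / Real.Gamma α)) * (C * (1 / α + 1)) ^ n := by
  have hM : 0 ≤ M := by have := (abs_nonneg _).trans (hp 0); simpa using this
  have hn : (0 : ℝ) ≤ n := Nat.cast_nonneg n
  have hG : 0 < Real.Gamma (α + n) := Real.Gamma_pos_of_pos (by positivity)
  have hf : (0 : ℝ) < n.factorial := by exact_mod_cast n.factorial_pos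
  rw [abs_mul, abs_of_pos (show 0 < (n.factorial : ℝ) / Real.Gamma (α + n) by positivity)]
  have h1 := inv_Gam_le hα n
  calc |p n| * (n.factorial / Real.Gamma (α + n)) = |p n| * (n.factorial * (1 / Real.Gamma (α + n))) := by ring
    _ ≤ (M * C ^ n) * (n.factorial * ((1 / Real.Gamma α) * ((1 / α + 1) ^ n / n.factorial))) := by
        gcongr
        exact hp n
    _ = _ := by rw [mul_pow]; field_simp

lemma hh_cont {α : ℝ} (hα : 0 < α) {p : ℕ → ℝ} {M C : ℝ} (hC : 0 ≤ C) (hp : ∀ n, |p n| ≤ M * C ^ n) :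
    Continuous (hh α p) := by
  rw [continuous_iff_continuousAt]
  intro x
  exact (ef_hasDerivAt (by positivity) (hh_bound hα hC hp) x).continuousAt

lemma Sf_eq {α : ℝ} (p : ℕ → ℝ) {x : ℝ} (hx : 0 < x) : Sf α p x = x ^ (α - 1) * hh α p x := by
  unfold Sf hh ef
  rw [← tsum_mul_left]
  apply tsum_congr
  intro n
  have hx2 : x ^ (α + n - 1) = x ^ (α - 1) * x ^ n := by
    rw [← Real.rpow_natCast x n, ← Real.rpow_add hx]; congr 1; ring
  have hf : (0 : ℝ) < n.factorial := by exact_mod_cast n.factorial_pos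
  rw [hx2]
  field_simp

/-- Cauchy product of sequences -/
noncomputable def cau (p q : ℕ → ℝ) (n : ℕ) : ℝ := ∑ i ∈ antidiagonal n, p i.1 * q i.2

lemma Sf_conv {α β : ℝ} (hα : 0 < α) (hβ : 0 < β) {p q : ℕ → ℝ} {M C : ℝ} (hC : 0 ≤ C)
    (hp : ∀ n, |p n| ≤ M * C ^ n) (hq : ∀ n, |q n| ≤ M * C ^ n) {x : ℝ} (hx : 0 < x) :
    IntervalIntegrable (fun y => Sf α p y * Sf β q (x - y)) volume 0 x ∧
    ∫ y in (0 : ℝ)..x, Sf α p y * Sf β q (x - y) = Sf (α + β) (cau p q) x := by
  have hM : 0 ≤ M := by have := (abs_nonneg _).trans (hp 0); simpa using this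
  set F : ℕ × ℕ → ℝ → ℝ := fun z y => (p z.1 * q z.2 / (Real.Gamma (α + z.1) * Real.Gamma (β + z.2))) *
    (y ^ ((α + z.1) - 1) * (x - y) ^ ((β + z.2) - 1)) with hF
  have hpos1 : ∀ n : ℕ, 0 < α + n := fun n => by positivity
  have hpos2 : ∀ n : ℕ, 0 < β + n := fun n => by positivity
  have hFi : ∀ z, Integrable (F z) (volume.restrict (Set.Ioc 0 x)) := by
    intro z
    have := beta_integrable (hpos1 z.1) (hpos2 z.2) hx
    rw [intervalIntegrable_iff_integrableOn_Ioc_of_le hx.le] at this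
    exact this.integrable.const_mul _
  have hval : ∀ z : ℕ × ℕ, ∫ y in Set.Ioc 0 x, (y ^ ((α + z.1) - 1) * (x - y) ^ ((β + z.2) - 1)) =
      x ^ ((α + z.1) + (β + z.2) - 1) * (Real.Gamma (α + z.1) * Real.Gamma (β + z.2) / Real.Gamma ((α + z.1) + (β + z.2))) := by
    intro z
    rw [← intervalIntegral.integral_of_le hx.le]
    exact beta_int (hpos1 z.1) (hpos2 z.2) hx
  have hnorm : ∀ z, ∫ y, ‖F z y‖ ∂(volume.restrict (Set.Ioc 0 x)) =
      |p z.1| * |q z.2| * (x ^ ((α + z.1) + (β + z.2) - 1) / Real.Gamma ((α + z.1) + (β + z.2))) := by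
    intro z
    have g1 := Real.Gamma_pos_of_pos (hpos1 z.1)
    have g2 := Real.Gamma_pos_of_pos (hpos2 z.2)
    have e : ∫ y, ‖F z y‖ ∂(volume.restrict (Set.Ioc 0 x)) = ∫ y in Set.Ioc 0 x,
        (|p z.1| * |q z.2| / (Real.Gamma (α + z.1) * Real.Gamma (β + z.2))) *
        (y ^ ((α + z.1) - 1) * (x - y) ^ ((β + z.2) - 1)) := by
      apply setIntegral_congr_fun measurableSet_Ioc
      intro y hy
      have h1 : 0 ≤ y ^ ((α + z.1) - 1) := Real.rpow_nonneg hy.1.le _
      have h2 : 0 ≤ (x - y) ^ ((β + z.2) - 1) := Real.rpow_nonneg (by linarith [hy.2]) _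
      simp only [hF]
      rw [norm_mul, norm_div, norm_mul, norm_mul, norm_mul, Real.norm_eq_abs, Real.norm_eq_abs, Real.norm_eq_abs,
        Real.norm_eq_abs, Real.norm_eq_abs, Real.norm_eq_abs, abs_of_pos g1, abs_of_pos g2, abs_of_nonneg h1,
        abs_of_nonneg h2]
    rw [e, integral_const_mul, hval]
    field_simp
  have hsum : Summable (fun z => ∫ y, ‖F z y‖ ∂(volume.restrict (Set.Ioc 0 x))) := by
    simp_rw [hnorm]
    have hab : 0 < α + β := by positivity
    have hG := Real.Gamma_pos_of_pos hab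
    set D : ℝ := C * x * (1 / (α + β) + 1) with hD
    have hD0 : 0 ≤ D := by positivity
    have s1 : Summable (fun n : ℕ => ‖D ^ n / n.factorial‖) := (Real.summable_pow_div_factorial D).norm
    have s2 := (summable_mul_of_summable_norm s1 s1).mul_left (M ^ 2 * (x ^ (α + β - 1) / Real.Gamma (α + β)))
    refine Summable.of_nonneg_of_le (fun z => ?_) (fun z => ?_) s2
    · have h1 := Real.Gamma_pos_of_pos (add_pos (hpos1 z.1) (hpos2 z.2))
      have h2 := Real.rpow_pos_of_pos hx ((α + z.1) + (β + z.2) - 1)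
      positivity
    · have e1 : (α + (z.1 : ℝ)) + (β + z.2) = (α + β) + ((z.1 + z.2 : ℕ) : ℝ) := by push_cast; ring
      have h1 := inv_Gam_le hab (z.1 + z.2)
      have e2 : x ^ ((α + (z.1 : ℝ)) + (β + z.2) - 1) = x ^ (α + β - 1) * x ^ (z.1 + z.2) := by
        rw [← Real.rpow_natCast x (z.1 + z.2), ← Real.rpow_add hx, e1]; congr 1; ring
      have hG2 : 0 < Real.Gamma ((α + β) + ((z.1 + z.2 : ℕ) : ℝ)) := Real.Gamma_pos_of_pos (by positivity)
      have hx3 := Real.rpow_pos_of_pos hx (α + β - 1)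
      have hf1 : (0 : ℝ) < z.1.factorial := by exact_mod_cast z.1.factorial_pos
      have hf2 : (0 : ℝ) < z.2.factorial := by exact_mod_cast z.2.factorial_pos
      have hf12 : ((z.1.factorial : ℝ) * z.2.factorial) ≤ ((z.1 + z.2).factorial : ℝ) := by
        exact_mod_cast Nat.le_of_dvd (Nat.factorial_pos _) (Nat.factorial_mul_factorial_dvd_factorial_add z.1 z.2)
      rw [e2, e1]
      calc |p z.1| * |q z.2| * (x ^ (α + β - 1) * x ^ (z.1 + z.2) / Real.Gamma ((α + β) + ((z.1 + z.2 : ℕ) : ℝ)))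
          = |p z.1| * |q z.2| * (x ^ (α + β - 1) * x ^ (z.1 + z.2) * (1 / Real.Gamma ((α + β) + ((z.1 + z.2 : ℕ) : ℝ)))) := by ring
        _ ≤ (M * C ^ z.1) * (M * C ^ z.2) * (x ^ (α + β - 1) * x ^ (z.1 + z.2) *
            ((1 / Real.Gamma (α + β)) * ((1 / (α + β) + 1) ^ (z.1 + z.2) / (z.1.factorial * z.2.factorial)))) := by
            have h3 : (1 / Real.Gamma (α + β)) * ((1 / (α + β) + 1) ^ (z.1 + z.2) / (z.1 + z.2).factorial) ≤
              (1 / Real.Gamma (α + β)) * ((1 / (α + β) + 1) ^ (z.1 + z.2) / (z.1.factorial * z.2.factorial)) := by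
              gcongr
            have h4 := h1.trans h3
            have h5 : 0 ≤ x ^ (α + β - 1) * x ^ (z.1 + z.2) := by positivity
            apply mul_le_mul _ (mul_le_mul_of_nonneg_left h4 h5) (by positivity) (by positivity)
            apply mul_le_mul (hp _) (hq _) (abs_nonneg _) (by positivity)
        _ = _ := by
            rw [hD, mul_pow, mul_pow, mul_pow, mul_pow, pow_add, pow_add]
            ring
  have hS := hasSum_integral_of_summable_integral_norm hFi hsum
  have hpt : ∀ y ∈ Set.Ioo 0 x, ∑' z, F z y = Sf α p y * Sf β q (x - y) := by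
    intro y hy
    have hy0 : 0 < y := hy.1
    have hy1 : 0 < x - y := by linarith [hy.2]
    unfold Sf
    rw [tsum_mul_tsum_of_summable_norm (Sf_summ hα hC hp hy0) (Sf_summ hβ hC hq hy1)]
    apply tsum_congr
    intro z
    simp only [hF]
    have g1 := Real.Gamma_pos_of_pos (hpos1 z.1)
    have g2 := Real.Gamma_pos_of_pos (hpos2 z.2)
    field_simp
  have hae : (fun y => ∑' z, F z y) =ᵐ[volume.restrict (Set.Ioc 0 x)] fun y => Sf α p y * Sf β q (x - y) := by
    rw [Filter.EventuallyEq, ae_restrict_iff' measurableSet_Ioc]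
    have : ∀ᵐ y ∂(volume : Measure ℝ), y ≠ x := by
      simp [ae_iff, measure_singleton]
    filter_upwards [this] with y hyx hy
    exact hpt y ⟨hy.1, lt_of_le_of_ne hy.2 hyx⟩
  constructor
  · have hc : ContinuousOn (fun y => hh α p y * hh β q (x - y)) (Set.uIcc 0 x) := by
      have c1 := hh_cont hα hC hp
      have c2 := hh_cont hβ hC hq
      exact (c1.mul (c2.comp (continuous_const.sub continuous_id))).continuousOn
    have hi := (beta_integrable hα hβ hx).mul_continuousOn hc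
    rw [intervalIntegrable_iff_integrableOn_Ioc_of_le hx.le] at hi ⊢
    refine Integrable.congr hi ?_
    rw [Filter.EventuallyEq, ae_restrict_iff' measurableSet_Ioc]
    have : ∀ᵐ y ∂(volume : Measure ℝ), y ≠ x := by
      simp [ae_iff, measure_singleton]
    filter_upwards [this] with y hyx hy
    have hlt : y < x := lt_of_le_of_ne hy.2 hyx
    rw [Sf_eq p hy.1, Sf_eq q (show 0 < x - y by linarith)]
    ring
  · rw [intervalIntegral.integral_of_le hx.le, ← integral_congr_ae hae, ← hS.tsum_eq]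
    have hterm : ∀ z, ∫ y in Set.Ioc 0 x, F z y = p z.1 * q z.2 *
        (x ^ ((α + z.1) + (β + z.2) - 1) / Real.Gamma ((α + z.1) + (β + z.2))) := by
      intro z
      simp only [hF]
      have g1 := Real.Gamma_pos_of_pos (hpos1 z.1)
      have g2 := Real.Gamma_pos_of_pos (hpos2 z.2)
      rw [integral_const_mul, hval]
      field_simp
    have hsm : Summable (fun z => ∫ y in Set.Ioc 0 x, F z y) := hS.summable
    rw [tsum_prod_antidiag hsm]
    unfold Sf cau
    apply tsum_congr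
    intro n
    rw [sum_mul]
    apply sum_congr rfl
    intro z hz
    rw [hterm z]
    have hn : z.1 + z.2 = n := mem_antidiagonal.mp hz
    rw [← hn]
    push_cast
    rw [show α + (z.1 : ℝ) + (β + z.2) = α + β + (z.1 + z.2) by ring]

end Q287.MK
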