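import Pool.Agent.Q287.MK.MK6
import Pool.Agent.Q287.MK.Defs

open Finset Filter Topology MeasureTheory

namespace Q287.MK

/-- coefficients of the `t`-th convolution root -/
noncomputable def ll (k : ℕ → ℝ) (t : ℝ) : ℕ → ℝ
  | 0 => 1
  | (n + 1) => t / (n + 1) * ∑ i : Fin (n + 1), k (i + 1) * ll k t (n - i)

lemma ll_zero (k : ℕ → ℝ) (t : ℝ) : ll k t 0 = 1 := by rw [ll]

lemma ll_succ (k : ℕ → ℝ) (t : ℝ) (n : ℕ) :
    ll k t (n + 1) * ((n : ℝ) + 1) = t * ∑ p ∈ antidiagonal n, k (p.1 + 1) * ll k t p.2 := by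
  rw [ll, Finset.Nat.sum_antidiagonal_eq_sum_range_succ (fun i j => k (i + 1) * ll k t j) n,
    ← Fin.sum_univ_eq_sum_range (fun i => k (i + 1) * ll k t (n - i))]
  have : (n : ℝ) + 1 ≠ 0 := by positivity
  field_simp

lemma ll_bound {k : ℕ → ℝ} {M C : ℝ} (hM : 0 ≤ M) (hC : 0 ≤ C) (hk : ∀ n, |k n| ≤ M * C ^ n) (t : ℝ) :
    ∀ n, |ll k t n| ≤ (C * (1 + |t| * M)) ^ n := by
  intro n
  induction n using Nat.strong_induction_on with
  | _ n ih =>
    rcases n with _ | n
    · simp [ll_zero]
    · set D : ℝ := C * (1 + |t| * M) with hD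
      have htM : 0 ≤ |t| * M := by positivity
      have hCD : C ≤ D := by rw [hD]; nlinarith
      have hD0 : 0 ≤ D := hC.trans hCD
      have h1 := ll_succ k t n
      have h2 : |ll k t (n + 1)| * ((n : ℝ) + 1) ≤ |t| * (((n : ℝ) + 1) * (M * C * D ^ n)) := by
        have h3 : |ll k t (n + 1)| * ((n : ℝ) + 1) = |t| * |∑ p ∈ antidiagonal n, k (p.1 + 1) * ll k t p.2| := by
          rw [← abs_mul, ← h1, abs_mul, abs_of_nonneg (show (0 : ℝ) ≤ (n : ℝ) + 1 by positivity)]
        rw [h3]
        apply mul_le_mul_of_nonneg_left _ (abs_nonneg t)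
        refine (Finset.abs_sum_le_sum_abs _ _).trans ?_
        have h4 : ∀ p ∈ antidiagonal n, |k (p.1 + 1) * ll k t p.2| ≤ M * C * D ^ n := by
          intro p hp
          have hpn : p.1 + p.2 = n := mem_antidiagonal.mp hp
          rw [abs_mul]
          calc |k (p.1 + 1)| * |ll k t p.2| ≤ (M * C ^ (p.1 + 1)) * D ^ p.2 :=
                mul_le_mul (hk _) (ih p.2 (by omega)) (abs_nonneg _) (by positivity)
            _ = M * C * (C ^ p.1 * D ^ p.2) := by ring
            _ ≤ M * C * (D ^ p.1 * D ^ p.2) := by gcongr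
            _ = M * C * D ^ n := by rw [← pow_add, hpn]
        refine (Finset.sum_le_sum h4).trans ?_
        rw [Finset.sum_const, Finset.Nat.card_antidiagonal, nsmul_eq_mul]
        push_cast
        exact le_rfl
      have hn : (0 : ℝ) < (n : ℝ) + 1 := by positivity
      have h5 : |ll k t (n + 1)| ≤ |t| * (M * C * D ^ n) := by
        have : |ll k t (n + 1)| * ((n : ℝ) + 1) ≤ (|t| * (M * C * D ^ n)) * ((n : ℝ) + 1) := by linarith
        exact le_of_mul_le_mul_right this hn
      refine h5.trans ?_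
      rw [pow_succ]
      have : |t| * (M * C * D ^ n) = D ^ n * (C * (|t| * M)) := by ring
      rw [this]
      apply mul_le_mul_of_nonneg_left _ (by positivity)
      rw [hD]; nlinarith

/-- uniqueness for the recursion -/
lemma ll_unique (k : ℕ → ℝ) (t : ℝ) (f : ℕ → ℝ) (h0 : f 0 = 1)
    (hf : ∀ n : ℕ, f (n + 1) * ((n : ℝ) + 1) = t * ∑ p ∈ antidiagonal n, k (p.1 + 1) * f p.2) :
    ∀ n, f n = ll k t n := by
  intro n
  induction n using Nat.strong_induction_on with
  | _ n ih =>
    rcases n with _ | n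
    · rw [h0, ll_zero]
    · have h1 := hf n
      have h2 := ll_succ k t n
      have h3 : ∑ p ∈ antidiagonal n, k (p.1 + 1) * f p.2 = ∑ p ∈ antidiagonal n, k (p.1 + 1) * ll k t p.2 := by
        apply sum_congr rfl
        intro p hp
        have hpn : p.1 + p.2 = n := mem_antidiagonal.mp hp
        rw [ih p.2 (by omega)]
      rw [h3, ← h2] at h1
      exact mul_right_cancel₀ (by positivity) h1

lemma ll_semigroup (k : ℕ → ℝ) (s t : ℝ) (n : ℕ) : cau (ll k s) (ll k t) n = ll k (s + t) n := by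
  have hd : ∀ r : ℝ, PowerSeries.derivative ℝ (PowerSeries.mk (ll k r)) =
      PowerSeries.C r * PowerSeries.mk (fun i => k (i + 1)) * PowerSeries.mk (ll k r) := by
    intro r
    ext n
    rw [PowerSeries.coeff_derivative, PowerSeries.coeff_mk, mul_assoc, PowerSeries.coeff_C_mul,
      PowerSeries.coeff_mul, ll_succ]
    simp only [PowerSeries.coeff_mk]
  have hprod : PowerSeries.mk (cau (ll k s) (ll k t)) = PowerSeries.mk (ll k s) * PowerSeries.mk (ll k t) := by
    ext n
    rw [PowerSeries.coeff_mul, PowerSeries.coeff_mk]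
    unfold cau
    simp only [PowerSeries.coeff_mk]
  apply ll_unique k (s + t) (cau (ll k s) (ll k t))
  · simp [cau, ll_zero]
  · intro n
    have h1 : PowerSeries.derivative ℝ (PowerSeries.mk (cau (ll k s) (ll k t))) =
        PowerSeries.C (s + t) * (PowerSeries.mk (fun i => k (i + 1)) * PowerSeries.mk (cau (ll k s) (ll k t))) := by
      rw [hprod, Derivation.leibniz, hd, hd, smul_eq_mul, smul_eq_mul, map_add]
      ring
    have h2 := congrArg (PowerSeries.coeff n) h1
    rw [PowerSeries.coeff_derivative, PowerSeries.coeff_mk, PowerSeries.coeff_C_mul,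
      PowerSeries.coeff_mul] at h2
    simp only [PowerSeries.coeff_mk] at h2
    exact h2

lemma ll_volterra {k : ℕ → ℝ} {κ : ℝ} (h0 : k 0 = κ) (t : ℝ) (n : ℕ) :
    (t * κ + n) * ll k t n = t * cau (ll k t) k n := by
  have hc : cau (ll k t) k n = ∑ p ∈ antidiagonal n, k p.1 * ll k t p.2 := by
    unfold cau
    rw [← Finset.Nat.sum_antidiagonal_swap]
    apply sum_congr rfl
    intro p _
    simp [mul_comm]
  rw [hc]
  rcases n with _ | n
  · simp [ll_zero, h0]
  · rw [Finset.Nat.sum_antidiagonal_succ]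
    simp only [h0]
    rw [mul_add, ← ll_succ]
    push_cast
    ring

lemma Sf_one (k : ℕ → ℝ) {x : ℝ} (hx : 0 < x) : Sf 1 k x = ef k x := by
  unfold Sf ef
  apply tsum_congr
  intro n
  rw [show (1 : ℝ) + n - 1 = n by ring, show (1 : ℝ) + n = n + 1 by ring, Real.Gamma_nat_eq_factorial,
    Real.rpow_natCast]
  ring

lemma x_mul_Sf {α : ℝ} (hα : 0 < α) (p : ℕ → ℝ) {x : ℝ} (hx : 0 < x) :
    x * Sf α p x = Sf (α + 1) (fun n => (α + n) * p n) x := by
  unfold Sf
  rw [← tsum_mul_left]
  apply tsum_congr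
  intro n
  have hp : 0 < α + n := by positivity
  rw [show α + 1 + (n : ℝ) = (α + n) + 1 by ring, Real.Gamma_add_one hp.ne',
    show α + (n : ℝ) + 1 - 1 = (α + n - 1) + 1 by ring, Real.rpow_add_one hx.ne']
  have := Real.Gamma_pos_of_pos hp
  field_simp

section
variable {k : ℕ → ℝ} {κ M C : ℝ} (hκ : 0 < κ) (hM : 0 ≤ M) (hC : 0 ≤ C) (hk : ∀ n, |k n| ≤ M * C ^ n)
  (h0 : k 0 = κ) (hpos : ∀ x, 0 ≤ x → 0 < ef k x)
include hκ hM hC hk

/-- the functions `f_t` -/
noncomputable def ft (k : ℕ → ℝ) (κ t x : ℝ) : ℝ := Sf (t * κ) (ll k t) x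

lemma ft_conv {s t : ℝ} (hs : 0 < s) (ht : 0 < t) {x : ℝ} (hx : 0 < x) :
    IntervalIntegrable (fun y => ft k κ s y * ft k κ t (x - y)) volume 0 x ∧
    ∫ y in (0 : ℝ)..x, ft k κ s y * ft k κ t (x - y) = ft k κ (s + t) x := by
  have h1 := ll_bound hM hC hk s
  have h2 := ll_bound hM hC hk t
  set D : ℝ := C * (1 + |s| * M) + C * (1 + |t| * M) with hD
  have d1 : 0 ≤ C * (1 + |s| * M) := by positivity
  have d2 : 0 ≤ C * (1 + |t| * M) := by positivity
  have b1 : ∀ n, |ll k s n| ≤ 1 * D ^ n := fun n => by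
    rw [one_mul]; exact (h1 n).trans (pow_le_pow_left₀ d1 (by linarith) n)
  have b2 : ∀ n, |ll k t n| ≤ 1 * D ^ n := fun n => by
    rw [one_mul]; exact (h2 n).trans (pow_le_pow_left₀ d2 (by linarith) n)
  have h3 := Sf_conv (mul_pos hs hκ) (mul_pos ht hκ) (by linarith) b1 b2 hx
  refine ⟨h3.1, ?_⟩
  unfold ft
  rw [h3.2, show cau (ll k s) (ll k t) = ll k (s + t) from funext (ll_semigroup k s t), add_mul]

include h0 hpos

lemma ft_pos {t : ℝ} (ht : 0 < t) {x : ℝ} (hx : 0 < x) : 0 < ft k κ t x := by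
  have hα : 0 < t * κ := mul_pos ht hκ
  have h2 := ll_bound hM hC hk t
  set D : ℝ := C * (1 + |t| * M) with hD
  have d2 : 0 ≤ D := by positivity
  have b2 : ∀ n, |ll k t n| ≤ 1 * D ^ n := fun n => by rw [one_mul]; exact h2 n
  have hcont := hh_cont hα d2 b2
  have hh0 : 0 < hh (t * κ) (ll k t) 0 := by
    unfold hh
    rw [ef_zero]
    have := Real.Gamma_pos_of_pos hα
    simp only [ll_zero, Nat.factorial_zero, Nat.cast_one, Nat.cast_zero, add_zero, one_mul]
    positivity
  -- it suffices that `hh > 0`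
  suffices hmain : 0 < hh (t * κ) (ll k t) x by
    unfold ft
    rw [Sf_eq _ hx]
    exact mul_pos (Real.rpow_pos_of_pos hx _) hmain
  by_contra hneg
  push Not at hneg
  set S : Set ℝ := Set.Icc 0 x ∩ {y | hh (t * κ) (ll k t) y ≤ 0} with hS
  have hSc : IsCompact S := isCompact_Icc.inter_right (isClosed_le hcont continuous_const)
  have hSn : S.Nonempty := ⟨x, ⟨hx.le, le_rfl⟩, hneg⟩
  have hmem := hSc.sInf_mem hSn
  set x0 := sInf S with hx0
  have hx00 : 0 < x0 := by
    rcases hmem.1.1.lt_or_eq with h | h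
    · exact h
    · exfalso
      have := hmem.2
      rw [← h] at this
      simp only [Set.mem_ofPred_eq] at this
      linarith
  have hbelow : ∀ y, 0 ≤ y → y < x0 → 0 < hh (t * κ) (ll k t) y := by
    intro y hy hyx
    by_contra hn
    push Not at hn
    have : y ∈ S := ⟨⟨hy, hyx.le.trans hmem.1.2⟩, hn⟩
    have := csInf_le hSc.bddBelow this
    linarith
  -- Volterra equation at x0
  set D' : ℝ := D + C with hD'
  have b3 : ∀ n, |ll k t n| ≤ (1 + M) * D' ^ n := fun n => by
    have h1 : D ^ n ≤ D' ^ n := pow_le_pow_left₀ d2 (by linarith) n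
    have h3 : 0 ≤ D' ^ n := by positivity
    calc |ll k t n| ≤ D ^ n := h2 n
      _ ≤ 1 * D' ^ n := by rw [one_mul]; exact h1
      _ ≤ _ := by apply mul_le_mul_of_nonneg_right _ h3; linarith
  have b4 : ∀ n, |k n| ≤ (1 + M) * D' ^ n := fun n => by
    have h1 : C ^ n ≤ D' ^ n := pow_le_pow_left₀ hC (by linarith) n
    have h3 : 0 ≤ D' ^ n := by positivity
    calc |k n| ≤ M * C ^ n := hk n
      _ ≤ M * D' ^ n := mul_le_mul_of_nonneg_left h1 hM
      _ ≤ _ := by apply mul_le_mul_of_nonneg_right _ h3; linarith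
  have hconv := Sf_conv hα one_pos (by positivity : 0 ≤ D') b3 b4 hx00
  have hvol : x0 * Sf (t * κ) (ll k t) x0 = t * ∫ y in (0 : ℝ)..x0, Sf (t * κ) (ll k t) y * Sf 1 k (x0 - y) := by
    rw [hconv.2, x_mul_Sf hα _ hx00]
    unfold Sf
    rw [← tsum_mul_left]
    apply tsum_congr
    intro n
    beta_reduce
    rw [ll_volterra h0 t n]
    ring
  have hint : 0 < ∫ y in (0 : ℝ)..x0, Sf (t * κ) (ll k t) y * Sf 1 k (x0 - y) := by
    apply intervalIntegral.intervalIntegral_pos_of_pos_on hconv.1 _ hx00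
    intro y hy
    have hy1 : 0 < x0 - y := by linarith [hy.2]
    rw [Sf_one k hy1, Sf_eq _ hy.1]
    exact mul_pos (mul_pos (Real.rpow_pos_of_pos hy.1 _) (hbelow y hy.1.le hy.2)) (hpos _ hy1.le)
  have h5 : 0 < x0 * Sf (t * κ) (ll k t) x0 := by rw [hvol]; positivity
  have h6 : Sf (t * κ) (ll k t) x0 ≤ 0 := by
    rw [Sf_eq _ hx00]
    exact mul_nonpos_of_nonneg_of_nonpos (Real.rpow_pos_of_pos hx00 _).le hmem.2
  have : x0 * Sf (t * κ) (ll k t) x0 ≤ 0 := mul_nonpos_of_nonneg_of_nonpos hx00.le h6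
  linarith

omit hκ hM hC hk h0 hpos in
/-- the density of the `t`-th root, exponentially tilted -/
noncomputable def dn (k : ℕ → ℝ) (κ b l t x : ℝ) : ENNReal :=
  ENNReal.ofReal (if 0 < x then Real.exp (-(b * x) - l * t) * ft k κ t x else 0)

omit h0 hpos in
lemma dn_meas (b l : ℝ) {t : ℝ} (ht : 0 < t) : Measurable (dn k κ b l t) := by
  have hα : 0 < t * κ := mul_pos ht hκ
  have h2 := ll_bound hM hC hk t
  have b2 : ∀ n, |ll k t n| ≤ 1 * (C * (1 + |t| * M)) ^ n := fun n => by rw [one_mul]; exact h2 n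
  have hcont := hh_cont hα (by positivity) b2
  have e : dn k κ b l t = fun x => ENNReal.ofReal (if 0 < x then Real.exp (-(b * x) - l * t) *
      (x ^ (t * κ - 1) * hh (t * κ) (ll k t) x) else 0) := by
    funext x
    unfold dn
    split_ifs with h
    · unfold ft; rw [Sf_eq _ h]
    · rfl
  rw [e]
  apply Measurable.ennreal_ofReal
  apply Measurable.ite measurableSet_Ioi
  · have := hcont.measurable
    fun_prop
  · exact measurable_const

lemma dn_conv (b l : ℝ) {s t : ℝ} (hs : 0 < s) (ht : 0 < t) :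
    (dn k κ b l s) ⋆ₗ[volume] (dn k κ b l t) = dn k κ b l (s + t) := by
  funext x
  rw [lconvolution_def]
  rcases le_or_gt x 0 with hx | hx
  · have h1 : dn k κ b l (s + t) x = 0 := by unfold dn; rw [if_neg (by linarith)]; simp
    rw [h1]
    have h2 : ∀ y, dn k κ b l s y * dn k κ b l t (-y + x) = 0 := by
      intro y
      unfold dn
      rcases le_or_gt y 0 with hy | hy
      · rw [if_neg (by linarith)]; simp
      · rw [if_neg (by linarith : ¬ 0 < -y + x)]; simp
    simp [h2]
  · have h2 : ∀ y, dn k κ b l s y * dn k κ b l t (-y + x) =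
        (Set.Ioc 0 x).indicator (fun y => ENNReal.ofReal (if y < x then Real.exp (-(b * x) - l * (s + t)) *
          (ft k κ s y * ft k κ t (x - y)) else 0)) y := by
      intro y
      unfold dn
      by_cases hy : y ∈ Set.Ioc 0 x
      · rw [Set.indicator_of_mem hy, if_pos hy.1]
        rcases lt_or_ge y x with h | h
        · rw [if_pos (by linarith), if_pos h]
          have p1 := ft_pos hκ hM hC hk h0 hpos hs hy.1
          rw [← ENNReal.ofReal_mul (by positivity)]
          congr 1
          have : Real.exp (-(b * x) - l * (s + t)) = Real.exp (-(b * y) - l * s) * Real.exp (-(b * (-y + x)) - l * t) := by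
            rw [← Real.exp_add]; congr 1; ring
          rw [this, show x - y = -y + x by ring]
          ring
        · rw [if_neg (by linarith), if_neg (by linarith)]; simp
      · rw [Set.indicator_of_notMem hy]
        by_cases hy0 : 0 < y
        · have : ¬ 0 < -y + x := by
            intro h; apply hy; exact ⟨hy0, by linarith⟩
          rw [if_neg this]; simp
        · rw [if_neg hy0]; simp
    simp_rw [h2]
    rw [lintegral_indicator measurableSet_Ioc]
    have hc := ft_conv hκ hM hC hk hs ht hx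
    have hi := hc.1
    rw [intervalIntegrable_iff_integrableOn_Ioc_of_le hx.le] at hi
    have hae : ∀ᵐ y ∂(volume : Measure ℝ), y ≠ x := by
      simp [ae_iff, measure_singleton]
    have e1 : ∫⁻ y in Set.Ioc 0 x, ENNReal.ofReal (if y < x then Real.exp (-(b * x) - l * (s + t)) *
          (ft k κ s y * ft k κ t (x - y)) else 0) = ∫⁻ y in Set.Ioc 0 x, ENNReal.ofReal
          (Real.exp (-(b * x) - l * (s + t)) * (ft k κ s y * ft k κ t (x - y))) := by
      apply lintegral_congr_ae
      rw [Filter.EventuallyEq, ae_restrict_iff' measurableSet_Ioc]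
      filter_upwards [hae] with y hyx hy
      rw [if_pos (lt_of_le_of_ne hy.2 hyx)]
    rw [e1, ← ofReal_integral_eq_lintegral_ofReal (hi.const_mul _)]
    · rw [integral_const_mul, ← intervalIntegral.integral_of_le hx.le, hc.2]
      unfold dn
      rw [if_pos hx]
    · rw [Filter.EventuallyLE, ae_restrict_iff' measurableSet_Ioc]
      filter_upwards [hae] with y hyx hy
      have hy1 : 0 < x - y := by
        have := lt_of_le_of_ne hy.2 hyx; linarith
      have p1 := ft_pos hκ hM hC hk h0 hpos hs hy.1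
      have p2 := ft_pos hκ hM hC hk h0 hpos ht hy1
      simp only [Pi.zero_apply]
      positivity

end

lemma conv_univ (P Q : Measure ℝ) [SFinite P] [SFinite Q] : (P ∗ Q) Set.univ = P Set.univ * Q Set.univ := by
  rw [Measure.conv, Measure.map_apply (by fun_prop) MeasurableSet.univ, Set.preimage_univ,
    ← Set.univ_prod_univ, Measure.prod_prod]

theorem infdiv_of_kernel {k : ℕ → ℝ} {κ M C : ℝ} (hκ : 0 < κ) (hM : 0 ≤ M) (hC : 0 ≤ C)
    (hk : ∀ n, |k n| ≤ M * C ^ n) (h0 : k 0 = κ) (hpos : ∀ x, 0 ≤ x → 0 < ef k x) (b l : ℝ)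
    (hmass : ∫⁻ x, dn k κ b l 1 x = 1) : IsInfDiv (volume.withDensity (dn k κ b l 1)) := by
  have hprob : ∀ t, ∫⁻ x, dn k κ b l t x = 1 → IsProbabilityMeasure (volume.withDensity (dn k κ b l t)) := by
    intro t ht
    constructor
    rw [withDensity_apply _ MeasurableSet.univ, setLIntegral_univ, ht]
  refine ⟨hprob 1 hmass, ?_⟩
  intro n hn
  have hn0 : (0 : ℝ) < n := by exact_mod_cast hn
  have ht : (0 : ℝ) < 1 / n := by positivity
  have hpow : ∀ j : ℕ, convPow (volume.withDensity (dn k κ b l (1 / n))) (j + 1) =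
      volume.withDensity (dn k κ b l (((j + 1 : ℕ) : ℝ) * (1 / n))) := by
    intro j
    induction j with
    | zero =>
      rw [convPow, convPow, Measure.dirac_zero_conv]
      simp
    | succ j ih =>
      rw [convPow, ih]
      have hj : (0 : ℝ) < ((j + 1 : ℕ) : ℝ) * (1 / n) := by positivity
      rw [conv_withDensity_eq_lconvolution (dn_meas hκ hM hC hk b l hj) (dn_meas hκ hM hC hk b l ht),
        dn_conv hκ hM hC hk h0 hpos b l hj ht]
      congr 2
      push_cast; ring
  obtain ⟨m, rfl⟩ : ∃ m, n = m + 1 := ⟨n - 1, by omega⟩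
  have hfin : convPow (volume.withDensity (dn k κ b l (1 / ((m + 1 : ℕ) : ℝ)))) (m + 1) =
      volume.withDensity (dn k κ b l 1) := by
    rw [hpow m]
    congr 2
    field_simp
  refine ⟨volume.withDensity (dn k κ b l (1 / ((m + 1 : ℕ) : ℝ))), ?_, hfin⟩
  -- total mass
  have hmassn : ∀ j : ℕ, (convPow (volume.withDensity (dn k κ b l (1 / ((m + 1 : ℕ) : ℝ)))) (j + 1)) Set.univ =
      ((volume.withDensity (dn k κ b l (1 / ((m + 1 : ℕ) : ℝ)))) Set.univ) ^ (j + 1) := by
    intro j
    induction j with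
    | zero => rw [convPow, convPow, Measure.dirac_zero_conv]; simp
    | succ j ih =>
      have : SFinite (convPow (volume.withDensity (dn k κ b l (1 / ((m + 1 : ℕ) : ℝ)))) (j + 1)) := by
        rw [hpow j]; infer_instance
      rw [convPow, conv_univ, ih, pow_succ _ (j + 1)]
  have h1 := hmassn m
  rw [hfin, withDensity_apply _ MeasurableSet.univ, setLIntegral_univ, hmass] at h1
  constructor
  have h2 := h1.symm
  rcases lt_trichotomy ((volume.withDensity (dn k κ b l (1 / ((m + 1 : ℕ) : ℝ)))) Set.univ) 1 with h | h | h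
  · have := pow_lt_one₀ zero_le h (Nat.succ_ne_zero m)
    rw [h2] at this
    exact absurd this (lt_irrefl _)
  · exact h
  · have := one_lt_pow₀ h (Nat.succ_ne_zero m)
    rw [h2] at this
    exact absurd this (lt_irrefl _)

end Q287.MK
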