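import Pool.Agent.Q287.MK.MK7

open Finset Filter Topology MeasureTheory

namespace Q287.MK

lemma Gamma_P {x : ℝ} (hx : 0 < x) (n : ℕ) : Real.Gamma (x + n) = P x n * Real.Gamma x := by
  induction n with
  | zero => simp [P_zero]
  | succ n ih =>
    have h1 : x + ((n + 1 : ℕ) : ℝ) = (x + n) + 1 := by push_cast; ring
    have h2 : x + (n : ℝ) ≠ 0 := by positivity
    rw [h1, Real.Gamma_add_one h2, ih, P_succ]; ring

section
variable {κ μ δ : ℝ} (hμ : -1 < μ)
include hμ

lemma GY_zero_eq (n : ℕ) : par (GY κ μ 0) 0 n = (κ + n) * par (Fc κ μ) 0 n := by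
  rcases Nat.even_or_odd' n with ⟨i, hi | hi⟩
  · subst hi
    rw [par0_even, par0_even]
    unfold GY Fc
    rw [show 0 + 2 * i + 1 = 2 * i + 1 by ring, P_succ, show (4 : ℝ) = 2 ^ 2 by norm_num, ← pow_mul]
    simp only [zero_add, add_zero]
    ring
  · subst hi
    rw [par0_odd, par0_odd]; ring

lemma F_rec (hκ : κ = 2 * μ + 1 + δ) (n : ℕ) :
    par (Fc κ μ) 0 (n + 1) * ((n : ℝ) + 1) = ∑ p ∈ antidiagonal n, kk κ μ δ (p.1 + 1) * par (Fc κ μ) 0 p.2 := by
  have h1 := chainY hμ hκ (n + 1) 0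
  rw [GY_zero_eq hμ, Finset.Nat.sum_antidiagonal_succ, mul_add, mul_sum] at h1
  have h2 : ∑ p ∈ antidiagonal n, κ * (mom (AY κ μ) (BY δ μ) (p.1 + 1) 0 * par (Fc κ μ) 0 p.2) =
      ∑ p ∈ antidiagonal n, kk κ μ δ (p.1 + 1) * par (Fc κ μ) 0 p.2 := by
    apply sum_congr rfl; intro p _; unfold kk; ring
  rw [h2] at h1
  rw [mom_zero, if_pos rfl] at h1
  push_cast at h1
  linarith

/-- scaled kernel -/
noncomputable def ka (κ μ δ a : ℝ) (n : ℕ) : ℝ := a ^ n * kk κ μ δ n

lemma ll_eq (hκ : κ = 2 * μ + 1 + δ) (a : ℝ) (n : ℕ) :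
    ll (ka κ μ δ a) 1 n = a ^ n * par (Fc κ μ) 0 n := by
  symm
  apply ll_unique (ka κ μ δ a) 1 (fun n => a ^ n * par (Fc κ μ) 0 n)
  · have := par0_even (Fc κ μ) 0
    rw [mul_zero] at this
    simp [this, Fc, P_zero]
  · intro n
    have h1 := F_rec hμ hκ n
    rw [mul_assoc, h1, one_mul, mul_sum]
    apply sum_congr rfl
    intro p hp
    have hpn : p.1 + p.2 = n := mem_antidiagonal.mp hp
    unfold ka
    rw [← hpn, show p.1 + p.2 + 1 = (p.1 + 1) + p.2 by ring, pow_add]
    ring

lemma ka_pos (hκ : κ = 2 * μ + 1 + δ) (hκ0 : 0 < κ) {a : ℝ} (ha : 0 < a) {x : ℝ} (hx : 0 ≤ x) :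
    0 < ef (ka κ μ δ a) x := by
  have h := k_pos hμ hκ hκ0 (show 0 ≤ a * x by positivity)
  have e : ef (ka κ μ δ a) x = ef (kk κ μ δ) (a * x) := by
    unfold ef ka
    apply tsum_congr
    intro n
    rw [mul_pow]; ring
  rw [e]; exact h

lemma ka_bound {a : ℝ} (ha : 0 < a) : ∃ M C : ℝ, 0 ≤ M ∧ 0 ≤ C ∧ ∀ n, |ka κ μ δ a n| ≤ M * C ^ n := by
  obtain ⟨M, C, hM, hC, hb⟩ := kk_bound (κ := κ) (δ := δ) hμ
  refine ⟨M, a * C, hM, by positivity, fun n => ?_⟩
  unfold ka
  rw [abs_mul, abs_of_pos (pow_pos ha n), mul_pow]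
  have := mul_le_mul_of_nonneg_left (hb n) (pow_pos ha n).le
  linarith

lemma Fc_pos (hκ0 : 0 < κ) (i : ℕ) : 0 < Fc κ μ i := by
  unfold Fc
  have h1 := P_pos hκ0 (2 * i)
  have h2 := Pmu_pos hμ i
  have hf : (0 : ℝ) < i.factorial := by exact_mod_cast i.factorial_pos
  positivity

lemma parF_nonneg (hκ0 : 0 < κ) (n : ℕ) : 0 ≤ par (Fc κ μ) 0 n := by
  unfold par
  split_ifs
  · exact (Fc_pos hμ hκ0 _).le
  · exact le_rfl

lemma Fc_ratio (hκ0 : 0 < κ) (i : ℕ) : Fc κ μ (i + 1) =
    Fc κ μ i * (((κ + 2 * i) / (2 * (1 + i))) * ((κ + 1 + 2 * i) / (2 * ((μ + 1) + i)))) := by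
  have h2 := Pmu_pos hμ i
  have hf : (0 : ℝ) < i.factorial := by exact_mod_cast i.factorial_pos
  have h3 : 0 < μ + 1 + (i : ℝ) := by
    have : (0 : ℝ) ≤ i := Nat.cast_nonneg i
    linarith
  unfold Fc
  rw [show 2 * (i + 1) = (2 * i + 1) + 1 by ring, P_succ κ (2 * i + 1), P_succ κ (2 * i), P_succ (μ + 1) i,
    Nat.factorial_succ, pow_succ]
  push_cast
  field_simp
  ring

lemma frac_lim (c d : ℝ) : Tendsto (fun i : ℕ => (c + 2 * (i : ℝ)) / (2 * (d + i))) atTop (𝓝 1) := by
  have h1 : Tendsto (fun i : ℕ => d + (i : ℝ)) atTop atTop :=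
    tendsto_atTop_add_const_left _ _ tendsto_natCast_atTop_atTop
  have h2 : Tendsto (fun i : ℕ => 1 + ((c - 2 * d) / 2) / (d + (i : ℝ))) atTop (𝓝 (1 + 0)) :=
    tendsto_const_nhds.add (h1.const_div_atTop _)
  rw [add_zero] at h2
  refine h2.congr' ?_
  filter_upwards [h1.eventually_gt_atTop 0] with i hi
  field_simp
  ring

lemma F_summable (hκ0 : 0 < κ) {r : ℝ} (hr : 0 < r) (hr1 : r < 1) :
    Summable (fun n : ℕ => r ^ n * par (Fc κ μ) 0 n) := by
  have hinj : Function.Injective (fun i : ℕ => 2 * i) := fun a b h => by simpa using h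
  have hs : Summable (fun i : ℕ => r ^ (2 * i) * Fc κ μ i) := by
    have hr2 : r ^ 2 < 1 := by nlinarith
    apply summable_of_ratio_test_tendsto_lt_one hr2
    · apply Eventually.of_forall
      intro i
      have := Fc_pos hμ hκ0 i
      positivity
    · have e : (fun n : ℕ => ‖r ^ (2 * (n + 1)) * Fc κ μ (n + 1)‖ / ‖r ^ (2 * n) * Fc κ μ n‖) =
          fun i : ℕ => r ^ 2 * (((κ + 2 * i) / (2 * (1 + i))) * ((κ + 1 + 2 * i) / (2 * ((μ + 1) + i)))) := by
        funext i
        have h1 := Fc_pos hμ hκ0 i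
        have h2 := Fc_pos hμ hκ0 (i + 1)
        rw [Real.norm_eq_abs, Real.norm_eq_abs, abs_of_pos (by positivity), abs_of_pos (by positivity),
          Fc_ratio hμ hκ0, show 2 * (i + 1) = 2 * i + 2 by ring, pow_add]
        rw [div_eq_iff (by positivity)]
        ring
      rw [e]
      have := ((frac_lim hμ κ 1).mul (frac_lim hμ (κ + 1) (μ + 1))).const_mul (r ^ 2)
      simpa using this
  rw [← hinj.summable_iff] 
  · refine hs.congr (fun i => ?_)
    simp only [Function.comp, par0_even]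
  · intro n hn
    rcases Nat.even_or_odd' n with ⟨i, hi | hi⟩
    · exact absurd ⟨i, hi.symm⟩ hn
    · subst hi; rw [par0_odd, mul_zero]

end

lemma Sf_bessel {κ μ ν a x : ℝ} (hμ : -1 < μ) (hκ : κ = μ + ν) (hκ0 : 0 < κ) (ha : 0 < a) (hx : 0 < x) :
    Sf κ (fun n => a ^ n * par (Fc κ μ) 0 n) x =
      (Real.Gamma (μ + 1) * (2 / a) ^ μ / Real.Gamma κ) * (x ^ (ν - 1) * besselI μ (a * x)) := by
  have hinj : Function.Injective (fun i : ℕ => 2 * i) := fun a b h => by simpa using h
  have hGκ := Real.Gamma_pos_of_pos hκ0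
  have hm : 0 < μ + 1 := by linarith
  have hGμ := Real.Gamma_pos_of_pos hm
  unfold Sf besselI
  rw [← hinj.tsum_eq]
  · rw [← mul_assoc, ← tsum_mul_left]
    apply tsum_congr
    intro i
    simp only [par0_even]
    have hf : (0 : ℝ) < i.factorial := by exact_mod_cast i.factorial_pos
    have hP := P_pos hκ0 (2 * i)
    have hP2 := Pmu_pos hμ i
    rw [Gamma_P hκ0 (2 * i), show (i : ℝ) + μ + 1 = (μ + 1) + i by ring, Gamma_P hm i]
    have hax : 0 < a * x / 2 := by positivity
    have e1 : (a * x / 2) ^ (2 * (i : ℝ) + μ) = (a / 2) ^ μ * x ^ μ * ((a ^ (2 * i) / 4 ^ i) * x ^ (2 * i)) := by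
      rw [add_comm, Real.rpow_add hax, show a * x / 2 = (a / 2) * x by ring, Real.mul_rpow (by positivity) hx.le,
        show (2 * (i : ℝ)) = ((2 * i : ℕ) : ℝ) by push_cast; ring, Real.rpow_natCast, mul_pow, div_pow,
        show (4 : ℝ) = 2 ^ 2 by norm_num, ← pow_mul]
    have e2 : x ^ (κ + ((2 * i : ℕ) : ℝ) - 1) = x ^ (ν - 1) * x ^ μ * x ^ (2 * i) := by
      rw [← Real.rpow_natCast x (2 * i), ← Real.rpow_add hx, ← Real.rpow_add hx, hκ]
      congr 1; ring
    have e3 : (2 / a) ^ μ * (a / 2) ^ μ = 1 := by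
      rw [← Real.mul_rpow (by positivity) (by positivity)]
      have : 2 / a * (a / 2) = 1 := by field_simp
      rw [this, Real.one_rpow]
    rw [e1, e2]
    unfold Fc
    have e4 : (a / 2) ^ μ ≠ 0 := (Real.rpow_pos_of_pos (by positivity) μ).ne'
    have e5 : (2 / a) ^ μ = 1 / (a / 2) ^ μ := by field_simp; linarith
    rw [e5]
    field_simp
  · intro n hn
    rw [Function.mem_support] at hn
    rcases Nat.even_or_odd' n with ⟨i, hi | hi⟩
    · exact ⟨i, hi.symm⟩
    · exfalso; apply hn; subst hi; beta_reduce; rw [par0_odd]; ring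

theorem law_infDiv (μ ν a b : ℝ) (hμ : -1 < μ) (hμν : 0 < μ + ν) (ha : 0 < a) (hab : a < b) :
    IsInfDiv (law μ ν a b) := by
  set κ : ℝ := μ + ν with hκ
  set δ : ℝ := ν - μ - 1 with hδ
  have hκδ : κ = 2 * μ + 1 + δ := by rw [hκ, hδ]; ring
  have hb : 0 < b := ha.trans hab
  set p : ℕ → ℝ := fun n => a ^ n * par (Fc κ μ) 0 n with hp
  have hp0 : ∀ n, 0 ≤ p n := fun n => mul_nonneg (pow_pos ha n).le (parF_nonneg hμ hμν n)
  have hGp : ∀ n : ℕ, 0 < Real.Gamma (κ + n) := fun n => Real.Gamma_pos_of_pos (by positivity)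
  -- mass
  set m : ℝ := ∑' n : ℕ, p n * (1 / b) ^ (κ + n) with hm
  have hterm : ∀ n : ℕ, p n * (1 / b) ^ (κ + n) = (1 / b) ^ κ * ((a / b) ^ n * par (Fc κ μ) 0 n) := by
    intro n
    rw [Real.rpow_add (by positivity), Real.rpow_natCast, hp]
    simp only
    rw [div_pow, div_pow, one_pow]; ring
  have hms : Summable (fun n : ℕ => p n * (1 / b) ^ (κ + n)) := by
    simp_rw [hterm]
    exact (F_summable hμ hμν (by positivity) ((div_lt_one hb).mpr hab)).mul_left _
  have hm0 : 0 < m := by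
    refine hms.tsum_pos (fun n => mul_nonneg (hp0 n) (Real.rpow_nonneg (by positivity) _)) 0 ?_
    have h1 : p 0 = 1 := by
      have := par0_even (Fc κ μ) 0
      rw [mul_zero] at this
      simp [hp, this, Fc, P_zero]
    rw [h1]
    have := Real.rpow_pos_of_pos (show 0 < 1 / b by positivity) (κ + (0 : ℕ))
    linarith
  have hSpos : ∀ x, 0 < x → 0 ≤ Sf κ p x := by
    intro x hx
    unfold Sf
    apply tsum_nonneg
    intro n
    have := hGp n
    have := Real.rpow_pos_of_pos hx (κ + n - 1)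
    have := hp0 n
    positivity
  have hpb : ∃ M C : ℝ, 0 ≤ M ∧ 0 ≤ C ∧ ∀ n, |ka κ μ δ a n| ≤ M * C ^ n := ka_bound hμ ha
  obtain ⟨M, C, hM, hC, hkb⟩ := hpb
  have hpl : p = ll (ka κ μ δ a) 1 := by
    funext n; rw [ll_eq hμ hκδ a n]
  have hpbd : ∀ n, |p n| ≤ 1 * (C * (1 + |1| * M)) ^ n := by
    intro n; rw [one_mul, hpl]; exact ll_bound hM hC hkb 1 n
  have hC' : 0 ≤ C * (1 + |1| * M) := by positivity
  -- Laplace transform
  have hlap : ∫⁻ x in Set.Ioi 0, ENNReal.ofReal (Real.exp (-(b * x)) * Sf κ p x) = ENNReal.ofReal m := by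
    have h1 : ∀ x ∈ Set.Ioi (0 : ℝ), ENNReal.ofReal (Real.exp (-(b * x)) * Sf κ p x) =
        ∑' n : ℕ, ENNReal.ofReal ((p n / Real.Gamma (κ + n)) * (x ^ (κ + n - 1) * Real.exp (-(b * x)))) := by
      intro x hx
      have hx0 : 0 < x := hx
      unfold Sf
      rw [← tsum_mul_left, ENNReal.ofReal_tsum_of_nonneg]
      · apply tsum_congr
        intro n
        congr 1; ring
      · intro n
        have := hGp n
        have := Real.rpow_pos_of_pos hx0 (κ + n - 1)
        have := hp0 n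
        positivity
      · exact (Sf_summ hμν hC' hpbd hx0).of_norm.mul_left _
    rw [setLIntegral_congr_fun measurableSet_Ioi h1, lintegral_tsum]
    · rw [hm, ENNReal.ofReal_tsum_of_nonneg _ hms]
      · apply tsum_congr
        intro n
        have hg := hGp n
        have hκn : 0 < κ + (n : ℝ) := by positivity
        have hval := Real.integral_rpow_mul_exp_neg_mul_Ioi hκn hb
        have hpos : 0 < (1 / b) ^ (κ + (n : ℝ)) * Real.Gamma (κ + n) := by
          have := Real.rpow_pos_of_pos (show 0 < 1 / b by positivity) (κ + (n : ℝ)); positivity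
        have hint : Integrable (fun t : ℝ => t ^ (κ + (n : ℝ) - 1) * Real.exp (-(b * t))) (volume.restrict (Set.Ioi 0)) := by
          by_contra h
          rw [integral_undef h] at hval
          linarith
        rw [← ofReal_integral_eq_lintegral_ofReal (hint.const_mul _)]
        · rw [integral_const_mul, hval]
          congr 1
          field_simp
        · rw [Filter.EventuallyLE, ae_restrict_iff' measurableSet_Ioi]
          apply Eventually.of_forall
          intro x hx
          have hx0 : 0 < x := hx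
          have := Real.rpow_pos_of_pos hx0 (κ + n - 1)
          have := hp0 n
          simp only [Pi.zero_apply]
          positivity
      · intro n
        exact mul_nonneg (hp0 n) (Real.rpow_nonneg (by positivity) _)
    · intro n
      apply Measurable.aemeasurable
      fun_prop
  set K : ℝ := Real.Gamma (μ + 1) * (2 / a) ^ μ / Real.Gamma κ with hK
  have hK0 : 0 < K := by
    have := Real.Gamma_pos_of_pos (show 0 < μ + 1 by linarith)
    have := Real.Gamma_pos_of_pos hμν
    have := Real.rpow_pos_of_pos (show 0 < 2 / a by positivity) μ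
    positivity
  have hphi : ∀ x, 0 < x → Real.exp (-(b * x)) * Sf κ p x = K * phi μ ν a b x := by
    intro x hx
    rw [hp, Sf_bessel hμ hκ hμν ha hx]
    unfold phi
    ring
  -- normalising constant
  have hc : ∫ y in Set.Ioi 0, phi μ ν a b y = m / K := by
    have hmeas : AEStronglyMeasurable (fun x => phi μ ν a b x) (volume.restrict (Set.Ioi 0)) := by
      have e : (fun x => phi μ ν a b x) =ᵐ[volume.restrict (Set.Ioi 0)]
          fun x => (1 / K) * (Real.exp (-(b * x)) * (x ^ (κ - 1) * hh κ p x)) := by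
        rw [Filter.EventuallyEq, ae_restrict_iff' measurableSet_Ioi]
        apply Eventually.of_forall
        intro x hx
        have := hphi x hx
        rw [Sf_eq p hx] at this
        rw [this]; field_simp
      refine AEStronglyMeasurable.congr ?_ e.symm
      have hcont := (hh_cont hμν hC' hpbd).measurable
      apply Measurable.aestronglyMeasurable
      fun_prop
    have hnn : 0 ≤ᵐ[volume.restrict (Set.Ioi 0)] fun x => phi μ ν a b x := by
      rw [Filter.EventuallyLE, ae_restrict_iff' measurableSet_Ioi]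
      apply Eventually.of_forall
      intro x hx
      have h1 := hphi x hx
      have h2 : 0 ≤ K * phi μ ν a b x := by
        rw [← h1]; exact mul_nonneg (Real.exp_pos _).le (hSpos x hx)
      exact nonneg_of_mul_nonneg_right h2 hK0
    rw [integral_eq_lintegral_of_nonneg_ae hnn hmeas]
    have h3 : ∫⁻ x in Set.Ioi 0, ENNReal.ofReal (phi μ ν a b x) = ENNReal.ofReal (m / K) := by
      have h4 : ∀ x ∈ Set.Ioi (0 : ℝ), ENNReal.ofReal (phi μ ν a b x) =
          ENNReal.ofReal (1 / K) * ENNReal.ofReal (Real.exp (-(b * x)) * Sf κ p x) := by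
        intro x hx
        rw [← ENNReal.ofReal_mul (by positivity), hphi x hx]
        congr 1; field_simp
      rw [setLIntegral_congr_fun measurableSet_Ioi h4, lintegral_const_mul' _ _ ENNReal.ofReal_ne_top, hlap,
        ← ENNReal.ofReal_mul (by positivity)]
      congr 1; ring
    rw [h3, ENNReal.toReal_ofReal (by positivity)]
  -- identification with `dn`
  have hlaw : law μ ν a b = volume.withDensity (dn (ka κ μ δ a) κ b (Real.log m) 1) := by
    unfold law
    congr 1
    funext x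
    unfold dn
    congr 1
    split_ifs with hx
    · rw [hc]
      unfold ft
      rw [one_mul, ← hpl, mul_one, Real.exp_sub, Real.exp_log hm0]
      have := hphi x hx
      have e : phi μ ν a b x = (Real.exp (-(b * x)) * Sf κ p x) / K := by rw [this]; field_simp
      rw [e]
      field_simp
    · rfl
  rw [hlaw]
  have h0 : ka κ μ δ a 0 = κ := by unfold ka; rw [kk_zero hμ]; simp
  apply infdiv_of_kernel hμν hM hC hkb h0 (fun x hx => ka_pos hμ hκδ hμν ha hx)
  -- total mass one
  have h1 : ∀ x, dn (ka κ μ δ a) κ b (Real.log m) 1 x = (Set.Ioi (0 : ℝ)).indicator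
      (fun x => ENNReal.ofReal (1 / m) * ENNReal.ofReal (Real.exp (-(b * x)) * Sf κ p x)) x := by
    intro x
    unfold dn
    by_cases hx : 0 < x
    · rw [if_pos hx, Set.indicator_of_mem (show x ∈ Set.Ioi (0 : ℝ) from hx), ← ENNReal.ofReal_mul (by positivity)]
      congr 1
      unfold ft
      rw [one_mul, ← hpl, mul_one, Real.exp_sub, Real.exp_log hm0]
      ring
    · rw [if_neg hx, Set.indicator_of_notMem (show x ∉ Set.Ioi (0 : ℝ) from hx)]; simp
  simp_rw [h1]
  rw [lintegral_indicator measurableSet_Ioi, lintegral_const_mul' _ _ ENNReal.ofReal_ne_top, hlap,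
    ← ENNReal.ofReal_mul (by positivity)]
  rw [show 1 / m * m = 1 by field_simp]
  simp

end Q287.MK
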